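import Pool.Agent.H95.QC.Targets

/-!
# The kernel of the walk on the torus: modules K0, K1, K2 of MP_f3a553_pr
-/

set_option autoImplicit false

open Finset

namespace Pool.Agent.H9.QC

open Pool.Agent.H95.QC

/-! ## K0 -/

theorem uZ_zero : uZ 0 = 1 := by simp [uZ]

theorem uZ_succ (n : ℕ) :
    uZ (n + 1) = uZ n * ((2 * (n : ℝ) + 1) / (2 * (n : ℝ) + 2)) ^ 2 := by
  have h : ((n : ℝ) + 1) * (Nat.centralBinom (n + 1) : ℝ) =
      2 * (2 * (n : ℝ) + 1) * (Nat.centralBinom n : ℝ) := by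
    exact_mod_cast Nat.succ_mul_centralBinom_succ n
  have hn : ((n : ℝ) + 1) ≠ 0 := by positivity
  have h2 : (Nat.centralBinom (n + 1) : ℝ) =
      2 * (2 * (n : ℝ) + 1) * (Nat.centralBinom n : ℝ) / ((n : ℝ) + 1) := by
    field_simp; linarith
  unfold uZ
  rw [h2, pow_succ]
  have e : (2 * (n : ℝ) + 2) = 2 * ((n : ℝ) + 1) := by ring
  rw [e]
  field_simp
  ring

theorem uZ_pos (n : ℕ) : 0 < uZ n := by
  unfold uZ
  have := Nat.centralBinom_pos n
  positivity

theorem uZ_bounds (n : ℕ) (hn : 1 ≤ n) :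
    1 / (4 * (n : ℝ)) ≤ uZ n ∧ uZ n ≤ 1 / (3 * (n : ℝ) + 1) := by
  induction n, hn using Nat.le_induction with
  | base =>
    have h1 := uZ_succ 0
    rw [uZ_zero] at h1
    norm_num at h1 ⊢
    rw [h1]
    norm_num
  | succ n hn ih =>
    have hn' : (1 : ℝ) ≤ n := by exact_mod_cast hn
    rw [uZ_succ]
    push_cast
    constructor
    · calc 1 / (4 * ((n : ℝ) + 1)) ≤
          1 / (4 * (n : ℝ)) * ((2 * (n : ℝ) + 1) / (2 * (n : ℝ) + 2)) ^ 2 := by
            rw [div_pow, div_mul_div_comm, div_le_div_iff₀ (by positivity) (by positivity)]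
            nlinarith
        _ ≤ _ := by gcongr; exact ih.1
    · calc uZ n * ((2 * (n : ℝ) + 1) / (2 * (n : ℝ) + 2)) ^ 2
          ≤ 1 / (3 * (n : ℝ) + 1) * ((2 * (n : ℝ) + 1) / (2 * (n : ℝ) + 2)) ^ 2 := by
            gcongr; exact ih.2
        _ ≤ _ := by
            rw [div_pow, div_mul_div_comm, div_le_div_iff₀ (by positivity) (by positivity)]
            nlinarith [sq_nonneg ((n : ℝ))]

theorem targetK0' : TargetK0 := by
  refine ⟨uZ_zero, fun n hn => ?_⟩
  obtain ⟨h1, h2⟩ := uZ_bounds n hn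
  have hn' : (1 : ℝ) ≤ n := by exact_mod_cast hn
  refine ⟨h1, h2.trans ?_⟩
  exact one_div_le_one_div_of_le (by positivity) (by linarith)

/-! ## the one-dimensional kernel -/

/-- one-dimensional kernel on `ZMod M` -/
noncomputable def bk (M : ℕ) : ℕ → ZMod M → ℝ
  | 0 => Pi.single 0 1
  | n + 1 => fun u => (bk M n (u - 1) + bk M n (u + 1)) / 2

theorem step_one {M : ℕ} (f : Tor M → ℝ) (x : Tor M) :
    step (st M) 1 f x = (∑ i, f (x - st M i)) / 4 := by
  unfold step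
  rw [Pi.one_apply, one_mul]

theorem q_zero (M : ℕ) : q M 0 = dl 0 := rfl

theorem q_succ (M n : ℕ) : q M (n + 1) = step (st M) 1 (q M n) := by
  unfold q
  rw [Function.iterate_succ_apply']

theorem q_eq (M n : ℕ) (x : Tor M) : q M n x = bk M n x.1 * bk M n x.2 := by
  induction n generalizing x with
  | zero =>
    rw [q_zero]
    unfold dl bk
    obtain ⟨u, v⟩ := x
    simp only [Pi.single_apply, Prod.mk_eq_zero]
    by_cases h1 : u = 0 <;> by_cases h2 : v = 0 <;> simp [h1, h2]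
  | succ n ih =>
    have hb : ∀ u, bk M (n + 1) u = (bk M n (u - 1) + bk M n (u + 1)) / 2 := fun _ => rfl
    have s0 : st M 0 = (1, 1) := rfl
    have s1 : st M 1 = (-1, -1) := rfl
    have s2 : st M 2 = (1, -1) := rfl
    have s3 : st M 3 = (-1, 1) := rfl
    rw [q_succ, step_one, Fin.sum_univ_four, hb, hb, s0, s1, s2, s3]
    simp only [ih, Prod.fst_sub, Prod.snd_sub, sub_neg_eq_add]
    ring

theorem bk_nonneg (M n : ℕ) (u : ZMod M) : 0 ≤ bk M n u := by
  induction n generalizing u with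
  | zero =>
    unfold bk
    rw [Pi.single_apply]
    split_ifs <;> norm_num
  | succ n ih =>
    unfold bk
    have h1 := ih (u - 1)
    have h2 := ih (u + 1)
    positivity

/-- explicit formula -/
theorem bk_eq (M n : ℕ) (u : ZMod M) :
    bk M n u = (∑ k ∈ range (n + 1), (n.choose k : ℝ) *
      (if (((n : ℤ) - 2 * k : ℤ) : ZMod M) = u then 1 else 0)) / 2 ^ n := by
  induction n generalizing u with
  | zero =>
    unfold bk
    rw [Pi.single_apply]
    simp [eq_comm]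
  | succ n ih =>
    have hstep : bk M (n + 1) u = (bk M n (u - 1) + bk M n (u + 1)) / 2 := rfl
    rw [hstep, ih, ih]
    have e1 : ∀ k : ℕ, ((((n : ℤ) - 2 * k : ℤ) : ZMod M) = u - 1) ↔
        (((((n + 1 : ℕ) : ℤ) - 2 * k : ℤ) : ZMod M) = u) := by
      intro k
      push_cast
      constructor
      · intro h
        have : (n : ZMod M) + 1 - 2 * k = ((n : ZMod M) - 2 * k) + 1 := by ring
        rw [this, h]; ring
      · intro h
        rw [← h]; ring
    have e2 : ∀ k : ℕ, ((((n : ℤ) - 2 * k : ℤ) : ZMod M) = u + 1) ↔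
        (((((n + 1 : ℕ) : ℤ) - 2 * ((k + 1 : ℕ) : ℤ) : ℤ) : ZMod M) = u) := by
      intro k
      push_cast
      constructor
      · intro h
        have : (n : ZMod M) + 1 - 2 * (k + 1) = ((n : ZMod M) - 2 * k) - 1 := by ring
        rw [this, h]; ring
      · intro h
        rw [← h]; ring
    simp only [e1, e2]
    set g : ℕ → ℝ := fun k =>
      if (((((n + 1 : ℕ) : ℤ) - 2 * (k : ℤ) : ℤ) : ZMod M) = u) then 1 else 0 with hg
    have s1 : (∑ k ∈ range (n + 1), (n.choose k : ℝ) * g k) =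
        ∑ k ∈ range (n + 2), (n.choose k : ℝ) * g k := by
      rw [sum_range_succ _ (n + 1), Nat.choose_succ_self]
      simp
    have s2 : (∑ k ∈ range (n + 2), ((n + 1).choose k : ℝ) * g k) =
        (∑ k ∈ range (n + 2), (n.choose k : ℝ) * g k) +
          ∑ k ∈ range (n + 1), (n.choose k : ℝ) * g (k + 1) := by
      rw [sum_range_succ' _ (n + 1), sum_range_succ' (fun k => (n.choose k : ℝ) * g k) (n + 1)]
      simp only [Nat.choose_succ_succ, Nat.cast_add, add_mul, sum_add_distrib, Nat.choose_zero_right]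
      ring
    have goal1 : (∑ k ∈ range (n + 1), (n.choose k : ℝ) * g k) +
        (∑ k ∈ range (n + 1), (n.choose k : ℝ) * g (k + 1)) =
        ∑ k ∈ range (n + 1 + 1), ((n + 1).choose k : ℝ) * g k := by
      rw [s2, s1]
    rw [← goal1]
    rw [pow_succ]
    simp only [hg]
    field_simp

theorem cast_inj_of_lt {M : ℕ} {m : ℤ} (h : ((m : ℤ) : ZMod M) = 0) (hm : |m| < M) : m = 0 :=
  Int.eq_zero_of_abs_lt_dvd ((ZMod.intCast_zmod_eq_zero_iff_dvd _ _).1 h) hm

theorem sum_bk_sq {M n : ℕ} [NeZero M] (h : 2 * n < M) :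
    ∑ u : ZMod M, bk M n u ^ 2 = (Nat.centralBinom n : ℝ) / 4 ^ n := by
  have e1 : ∀ u : ZMod M, bk M n u ^ 2 = (∑ k ∈ range (n + 1), ∑ l ∈ range (n + 1),
      (n.choose k : ℝ) * (n.choose l : ℝ) *
        ((if (((n : ℤ) - 2 * k : ℤ) : ZMod M) = u then 1 else 0) *
         (if (((n : ℤ) - 2 * l : ℤ) : ZMod M) = u then 1 else 0))) / 4 ^ n := by
    intro u
    rw [bk_eq, div_pow, pow_two (∑ k ∈ range (n + 1), _), sum_mul_sum]
    have : ((2 : ℝ) ^ n) ^ 2 = 4 ^ n := by rw [← pow_mul, mul_comm, pow_mul]; norm_num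
    rw [this]
    congr 1
    refine sum_congr rfl fun k _ => sum_congr rfl fun l _ => ?_
    ring
  simp_rw [e1]
  rw [← sum_div]
  congr 1
  rw [sum_comm]
  rw [Nat.centralBinom, ← Nat.sum_range_choose_sq, Nat.cast_sum]
  refine sum_congr rfl fun k hk => ?_
  rw [sum_comm]
  rw [sum_eq_single_of_mem k hk]
  · rw [← mul_sum]
    have : ∑ u : ZMod M, ((if (((n : ℤ) - 2 * k : ℤ) : ZMod M) = u then (1 : ℝ) else 0) *
         (if (((n : ℤ) - 2 * k : ℤ) : ZMod M) = u then 1 else 0)) = 1 := by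
      simp
    rw [this, Nat.cast_pow]
    ring
  · intro l hl hlk
    refine sum_eq_zero fun u _ => ?_
    have hne : (((n : ℤ) - 2 * k : ℤ) : ZMod M) ≠ (((n : ℤ) - 2 * l : ℤ) : ZMod M) := by
      intro hEq
      have h0 : (((2 * l - 2 * k : ℤ)) : ZMod M) = 0 := by
        have : ((2 * l - 2 * k : ℤ)) = ((n : ℤ) - 2 * k) - ((n : ℤ) - 2 * l) := by ring
        rw [this, Int.cast_sub, hEq, sub_self]
      have hk' : k < n + 1 := mem_range.1 hk
      have hl' : l < n + 1 := mem_range.1 hl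
      have := cast_inj_of_lt h0 (by rw [abs_lt]; omega)
      apply hlk
      omega
    by_cases h1 : (((n : ℤ) - 2 * k : ℤ) : ZMod M) = u
    · have h2 : ¬ ((((n : ℤ) - 2 * l : ℤ) : ZMod M) = u) := fun h2 => hne (h1.trans h2.symm)
      rw [if_neg h2]; ring
    · rw [if_neg h1]; ring

theorem targetK1 : TargetK1 := by
  intro M n _ h
  unfold Pool.Agent.H95.QC.sq
  rw [Fintype.sum_prod_type]
  have : ∀ u v : ZMod M, q M n (u, v) ^ 2 = bk M n u ^ 2 * bk M n v ^ 2 := by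
    intro u v
    rw [q_eq]; ring
  simp_rw [this, ← mul_sum]
  rw [← sum_mul, sum_bk_sq h]
  unfold uZ
  ring

/-! ## values at even times -/

theorem bk_zero_eq {M n : ℕ} (h : 2 * n < M) :
    bk M (2 * n) 0 = (Nat.centralBinom n : ℝ) / 4 ^ n := by
  rw [bk_eq]
  have e4 : ((2 : ℝ) ^ (2 * n)) = 4 ^ n := by rw [pow_mul]; norm_num
  rw [e4]
  congr 1
  rw [sum_eq_single_of_mem n (mem_range.2 (by omega))]
  · have : ((((2 * n : ℕ) : ℤ) - 2 * (n : ℤ) : ℤ) : ZMod M) = 0 := by push_cast; ring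
    rw [if_pos this, mul_one]
    rfl
  · intro k hk hkn
    rw [if_neg, mul_zero]
    intro h0
    have hk' : k < 2 * n + 1 := mem_range.1 hk
    have := cast_inj_of_lt h0 (by rw [abs_lt]; omega)
    apply hkn
    omega

theorem bk_le {M n : ℕ} (h : 4 * n < M) (u : ZMod M) :
    bk M (2 * n) u ≤ bk M (2 * n) 0 := by
  rw [bk_zero_eq (by omega), bk_eq]
  have e4 : ((2 : ℝ) ^ (2 * n)) = 4 ^ n := by rw [pow_mul]; norm_num
  rw [e4]
  gcongr
  by_cases hex : ∃ k ∈ range (2 * n + 1), ((((2 * n : ℕ) : ℤ) - 2 * (k : ℤ) : ℤ) : ZMod M) = u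
  · obtain ⟨k, hk, hku⟩ := hex
    rw [sum_eq_single_of_mem k hk]
    · rw [if_pos hku, mul_one]
      exact_mod_cast Nat.choose_le_centralBinom k n
    · intro l hl hlk
      rw [if_neg, mul_zero]
      intro hlu
      have h0 : (((2 * l - 2 * k : ℤ)) : ZMod M) = 0 := by
        have : ((2 * l - 2 * k : ℤ)) =
          (((2 * n : ℕ) : ℤ) - 2 * k) - (((2 * n : ℕ) : ℤ) - 2 * l) := by ring
        rw [this, Int.cast_sub, hku, hlu, sub_self]
      have hk' : k < 2 * n + 1 := mem_range.1 hk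
      have hl' : l < 2 * n + 1 := mem_range.1 hl
      have := cast_inj_of_lt h0 (by rw [abs_lt]; omega)
      apply hlk
      omega
  · rw [sum_eq_zero]
    · positivity
    · intro k hk
      rw [if_neg, mul_zero]
      exact fun h' => hex ⟨k, hk, h'⟩

theorem choose_ratio {n : ℕ} (hn : 1 ≤ n) (k : ℕ) (hk : k ≤ n) :
    (Nat.centralBinom n : ℝ) * (1 - (k : ℝ) ^ 2 / n) ≤ ((2 * n).choose (n - k) : ℝ) := by
  have hn0 : (0 : ℝ) < n := by exact_mod_cast hn
  have hC0 : (0 : ℝ) < Nat.centralBinom n := by exact_mod_cast Nat.centralBinom_pos n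
  induction k with
  | zero =>
    simp [Nat.centralBinom]
  | succ k ih =>
    have ih' := ih (by omega)
    have hle : ((2 * n).choose (n - k) : ℝ) ≤ Nat.centralBinom n := by
      exact_mod_cast Nat.choose_le_centralBinom (n - k) n
    have hrec : ((2 * n).choose (n - (k + 1)) : ℝ) * ((n : ℝ) + k + 1) =
        ((2 * n).choose (n - k) : ℝ) * ((n : ℝ) - k) := by
      obtain ⟨m, hm⟩ : ∃ m, n = m + (k + 1) := ⟨n - (k + 1), by omega⟩
      have e1 : n - (k + 1) = m := by omega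
      have e2 : n - k = m + 1 := by omega
      rw [e1, e2]
      have h := Nat.choose_succ_right_eq (2 * n) m
      have h' : (((2 * n).choose (m + 1) : ℕ) : ℝ) * ((m : ℝ) + 1) =
          ((2 * n).choose m : ℝ) * ((2 * n - m : ℕ) : ℝ) := by exact_mod_cast h
      have e3 : ((2 * n - m : ℕ) : ℝ) = (n : ℝ) + k + 1 := by
        have : 2 * n - m = n + k + 1 := by omega
        rw [this]; push_cast; ring
      have e4 : (n : ℝ) - k = (m : ℝ) + 1 := by
        rw [hm]; push_cast; ring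
      rw [e3] at h'
      rw [e4, h']
    have hpos : (0 : ℝ) < (n : ℝ) + k + 1 := by positivity
    have hval : ((2 * n).choose (n - (k + 1)) : ℝ) =
        ((2 * n).choose (n - k) : ℝ) - ((2 * n).choose (n - k) : ℝ) * ((2 * k + 1) / ((n : ℝ) + k + 1)) := by
      rw [← eq_div_iff hpos.ne'] at hrec
      rw [hrec]
      field_simp
      ring
    rw [hval]
    have h1 : ((2 * n).choose (n - k) : ℝ) * ((2 * k + 1) / ((n : ℝ) + k + 1)) ≤
        Nat.centralBinom n * ((2 * k + 1) / n) := by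
      refine mul_le_mul hle ?_ (by positivity) hC0.le
      exact div_le_div_of_nonneg_left (by positivity) hn0 (by linarith [Nat.cast_nonneg (α := ℝ) k])
    have h2 : (Nat.centralBinom n : ℝ) * (1 - ((k + 1 : ℕ) : ℝ) ^ 2 / n) =
        Nat.centralBinom n * (1 - (k : ℝ) ^ 2 / n) - Nat.centralBinom n * ((2 * k + 1) / n) := by
      push_cast
      field_simp
      ring
    rw [h2]
    linarith

theorem bk_lower {M n : ℕ} (hn : 1 ≤ n) (h : 2 * n < M) (k : ℤ) :
    bk M (2 * n) 0 * (1 - (k : ℝ) ^ 2 / n) ≤ bk M (2 * n) ((2 * k : ℤ) : ZMod M) := by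
  have hn0 : (0 : ℝ) < n := by exact_mod_cast hn
  rw [bk_zero_eq h]
  by_cases hk : k.natAbs ≤ n
  · have h1 := choose_ratio hn k.natAbs hk
    have e0 : ((k.natAbs : ℝ)) ^ 2 = (k : ℝ) ^ 2 := by
      rw [← Int.cast_natCast, Int.natCast_natAbs, Int.cast_abs, sq_abs]
    rw [e0] at h1
    rw [bk_eq]
    have e4 : ((2 : ℝ) ^ (2 * n)) = 4 ^ n := by rw [pow_mul]; norm_num
    rw [e4, div_mul_eq_mul_div]
    gcongr
    refine h1.trans ?_
    -- the index
    obtain ⟨j, hj⟩ : ∃ j : ℕ, (j : ℤ) = n - k := ⟨(n - k : ℤ).toNat, by omega⟩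
    have hj2 : j ∈ range (2 * n + 1) := mem_range.2 (by omega)
    have hc : (2 * n).choose (n - k.natAbs) = (2 * n).choose j := by
      rcases le_total 0 k with hk0 | hk0
      · congr 1; omega
      · have : j = 2 * n - (n - k.natAbs) := by omega
        rw [this, Nat.choose_symm (by omega)]
    have hcond : ((((2 * n : ℕ) : ℤ) - 2 * (j : ℤ) : ℤ) : ZMod M) = ((2 * k : ℤ) : ZMod M) := by
      congr 1
      rw [hj]; push_cast; ring
    rw [hc]
    have := single_le_sum (f := fun i : ℕ => ((2 * n).choose i : ℝ) *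
      (if ((((2 * n : ℕ) : ℤ) - 2 * (i : ℤ) : ℤ) : ZMod M) = ((2 * k : ℤ) : ZMod M) then 1 else 0))
      (s := range (2 * n + 1)) (fun i _ => by positivity) hj2
    simp only [hcond, if_true, mul_one] at this
    exact this
  · have h1 : (n : ℝ) ≤ (k : ℝ) ^ 2 := by
      have h2 : (n : ℝ) < |(k : ℝ)| := by
        have : (n : ℤ) < |k| := by rw [Int.abs_eq_natAbs]; omega
        exact_mod_cast this
      have h3 : (1 : ℝ) ≤ n := by exact_mod_cast hn
      rw [← sq_abs]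
      nlinarith
    have h2 : 1 - (k : ℝ) ^ 2 / n ≤ 0 := by
      rw [sub_nonpos, le_div_iff₀ hn0]; linarith
    refine (mul_nonpos_of_nonneg_of_nonpos (by positivity) h2).trans (bk_nonneg _ _ _)

/-! ## convolution and symmetry -/

theorem step_sum {M : ℕ} [NeZero M] (f g : Tor M → ℝ) :
    ∑ x, step (st M) 1 f x * g x = ∑ x, f x * step (st M) 1 g x := by
  have hs : ∀ s : Tor M, ∑ x, f (x - s) * g x = ∑ x, f x * g (x + s) := by
    intro s
    rw [← Equiv.sum_comp (Equiv.addRight s)]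
    simp
  have e1 : ∑ x, step (st M) 1 f x * g x = (∑ i, ∑ x, f (x - st M i) * g x) / 4 := by
    rw [sum_comm, sum_div]
    refine sum_congr rfl fun x _ => ?_
    rw [step_one, ← sum_mul]
    ring
  have e2 : ∑ x, f x * step (st M) 1 g x = (∑ i, ∑ x, f x * g (x - st M i)) / 4 := by
    rw [sum_comm, sum_div]
    refine sum_congr rfl fun x _ => ?_
    rw [step_one, ← mul_sum]
    ring
  rw [e1, e2]
  simp only [hs]
  rw [Fin.sum_univ_four, Fin.sum_univ_four]
  have a0 : ∀ x : Tor M, x + st M 0 = x - st M 1 := by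
    intro x; simp [st, Prod.ext_iff]
  have a1 : ∀ x : Tor M, x + st M 1 = x - st M 0 := by
    intro x; simp [st, Prod.ext_iff, sub_eq_add_neg]
  have a2 : ∀ x : Tor M, x + st M 2 = x - st M 3 := by
    intro x; simp [st, Prod.ext_iff, sub_eq_add_neg]
  have a3 : ∀ x : Tor M, x + st M 3 = x - st M 2 := by
    intro x; simp [st, Prod.ext_iff, sub_eq_add_neg]
  simp only [a0, a1, a2, a3]
  ring

theorem iter_sum {M : ℕ} [NeZero M] (n : ℕ) (f g : Tor M → ℝ) :
    ∑ x, (step (st M) 1)^[n] f x * g x = ∑ x, f x * (step (st M) 1)^[n] g x := by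
  induction n generalizing f g with
  | zero => rfl
  | succ n ih =>
    rw [Function.iterate_succ_apply, ih, step_sum, Function.iterate_succ_apply']

theorem iter_conv {M : ℕ} [NeZero M] (n : ℕ) (F : Tor M → ℝ) (x : Tor M) :
    (step (st M) 1)^[n] F x = ∑ y, F y * q M n (x - y) := by
  induction n generalizing x with
  | zero =>
    rw [q_zero]
    unfold dl
    simp only [Function.iterate_zero, id_eq, Pi.single_apply, sub_eq_zero]
    simp
  | succ n ih =>
    rw [Function.iterate_succ_apply', q_succ, step_one]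
    rw [sum_congr rfl fun i _ => ih (x - st M i), sum_comm, sum_div]
    refine sum_congr rfl fun y _ => ?_
    rw [← mul_sum, mul_div_assoc, step_one]
    congr 2
    refine sum_congr rfl fun i _ => ?_
    congr 1
    abel

/-! ## K2 -/

theorem q_diff {M n : ℕ} (hn : 1 ≤ n) (h : 4 * n < M) (k l : ℤ) (z : Tor M)
    (hz : z = (((2 * k : ℤ) : ZMod M), ((2 * l : ℤ) : ZMod M))) :
    0 ≤ q M (2 * n) 0 - q M (2 * n) z ∧
    q M (2 * n) 0 - q M (2 * n) z ≤ uZ n * (((k : ℝ) ^ 2 + (l : ℝ) ^ 2) / n) := by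
  rw [q_eq, q_eq]
  set b0 := bk M (2 * n) 0 with hb0
  set A := bk M (2 * n) z.1 with hA
  set B := bk M (2 * n) z.2 with hB
  have hA1 : A ≤ b0 := bk_le h _
  have hB1 : B ≤ b0 := bk_le h _
  have hA0 : 0 ≤ A := bk_nonneg _ _ _
  have hB0 : 0 ≤ B := bk_nonneg _ _ _
  have hA2 : b0 * (1 - (k : ℝ) ^ 2 / n) ≤ A := by
    rw [hA, hz]; exact bk_lower hn (by omega) k
  have hB2 : b0 * (1 - (l : ℝ) ^ 2 / n) ≤ B := by
    rw [hB, hz]; exact bk_lower hn (by omega) l
  have hu : uZ n = b0 ^ 2 := by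
    rw [hb0, bk_zero_eq (by omega)]; rfl
  have e0 : bk M (2 * n) (0 : Tor M).1 = b0 := rfl
  have e0' : bk M (2 * n) (0 : Tor M).2 = b0 := rfl
  rw [e0, e0', hu]
  have hb : 0 ≤ b0 := hA0.trans hA1
  constructor
  · nlinarith
  · have h1 : b0 - A ≤ b0 * ((k : ℝ) ^ 2 / n) := by linarith
    have h2 : b0 - B ≤ b0 * ((l : ℝ) ^ 2 / n) := by linarith
    have h3 : b0 * (b0 - A) ≤ b0 * (b0 * ((k : ℝ) ^ 2 / n)) := by gcongr
    have h4 : A * (b0 - B) ≤ b0 * (b0 * ((l : ℝ) ^ 2 / n)) :=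
      mul_le_mul hA1 h2 (by linarith) hb
    calc b0 * b0 - A * B = b0 * (b0 - A) + A * (b0 - B) := by ring
      _ ≤ b0 * (b0 * ((k : ℝ) ^ 2 / n)) + b0 * (b0 * ((l : ℝ) ^ 2 / n)) := add_le_add h3 h4
      _ = b0 ^ 2 * (((k : ℝ) ^ 2 + (l : ℝ) ^ 2) / n) := by ring

theorem even_diff {M : ℕ} [NeZero M] (hM : Even M) {a b : ZMod M} {p : ℕ}
    (ha : a.val % 2 = p % 2) (hb : b.val % 2 = p % 2) :
    ∃ k : ℤ, a.valMinAbs - b.valMinAbs = 2 * k := by
  have key : ∀ c : ZMod M, c.val % 2 = p % 2 → c.valMinAbs % 2 = (p : ℤ) % 2 := by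
    intro c hc
    obtain ⟨m, hm⟩ := hM
    have hv := c.val_lt
    rw [ZMod.valMinAbs_def_pos]
    split_ifs
    · omega
    · omega
  have h1 := key a ha
  have h2 := key b hb
  exact ⟨(a.valMinAbs - b.valMinAbs) / 2, by omega⟩

theorem targetK2 : TargetK2 := by
  intro M n p _ hM hn h4 F hF hsum
  have hn0 : (0 : ℝ) < n := by exact_mod_cast hn
  -- pointwise bound
  have key : ∀ x y : Tor M, F x * F y * (q M (2 * n) (x - y) - q M (2 * n) 0) ≤
      uZ n / (4 * n) * (|F x| * |F y| * (2 * nrm2 x + 2 * nrm2 y)) := by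
    intro x y
    by_cases hx : F x = 0
    · rw [hx]; simp
    by_cases hy : F y = 0
    · rw [hy]; simp
    obtain ⟨hx1, hx2⟩ := hF x hx
    obtain ⟨hy1, hy2⟩ := hF y hy
    obtain ⟨k, hk⟩ := even_diff hM hx1 hy1
    obtain ⟨l, hl⟩ := even_diff hM hx2 hy2
    have hz : x - y = (((2 * k : ℤ) : ZMod M), ((2 * l : ℤ) : ZMod M)) := by
      rw [← hk, ← hl]
      simp [Prod.ext_iff]
    obtain ⟨d0, d1⟩ := q_diff hn h4 k l (x - y) hz
    have hk2 : 4 * (k : ℝ) ^ 2 ≤ 2 * (x.1.valMinAbs : ℝ) ^ 2 + 2 * (y.1.valMinAbs : ℝ) ^ 2 := by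
      have : (2 * (k : ℝ)) = x.1.valMinAbs - y.1.valMinAbs := by exact_mod_cast hk.symm
      have e : 4 * (k : ℝ) ^ 2 = ((x.1.valMinAbs : ℝ) - y.1.valMinAbs) ^ 2 := by rw [← this]; ring
      rw [e]
      nlinarith [sq_nonneg ((x.1.valMinAbs : ℝ) + y.1.valMinAbs)]
    have hl2 : 4 * (l : ℝ) ^ 2 ≤ 2 * (x.2.valMinAbs : ℝ) ^ 2 + 2 * (y.2.valMinAbs : ℝ) ^ 2 := by
      have : (2 * (l : ℝ)) = x.2.valMinAbs - y.2.valMinAbs := by exact_mod_cast hl.symm
      have e : 4 * (l : ℝ) ^ 2 = ((x.2.valMinAbs : ℝ) - y.2.valMinAbs) ^ 2 := by rw [← this]; ring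
      rw [e]
      nlinarith [sq_nonneg ((x.2.valMinAbs : ℝ) + y.2.valMinAbs)]
    have hu := (uZ_pos n).le
    calc F x * F y * (q M (2 * n) (x - y) - q M (2 * n) 0)
        ≤ |F x * F y * (q M (2 * n) (x - y) - q M (2 * n) 0)| := le_abs_self _
      _ = |F x| * |F y| * (q M (2 * n) 0 - q M (2 * n) (x - y)) := by
        rw [abs_mul, abs_mul, abs_sub_comm, abs_of_nonneg d0]
      _ ≤ |F x| * |F y| * (uZ n * (((k : ℝ) ^ 2 + (l : ℝ) ^ 2) / n)) := by gcongr
      _ = uZ n / (4 * n) * (|F x| * |F y| * (4 * (k : ℝ) ^ 2 + 4 * (l : ℝ) ^ 2)) := by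
        field_simp
      _ ≤ uZ n / (4 * n) * (|F x| * |F y| * (2 * nrm2 x + 2 * nrm2 y)) := by
        have hkl : 4 * (k : ℝ) ^ 2 + 4 * (l : ℝ) ^ 2 ≤ 2 * nrm2 x + 2 * nrm2 y := by
          unfold nrm2; linarith
        gcongr
  have e1 : Pool.Agent.H95.QC.sq ((step (st M) 1)^[n] F) = ∑ x, F x * ∑ y, F y * q M (2 * n) (x - y) := by
    unfold Pool.Agent.H95.QC.sq
    have : ∀ x, (step (st M) 1)^[n] F x ^ 2 =
      (step (st M) 1)^[n] F x * (step (st M) 1)^[n] F x := fun x => by ring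
    simp_rw [this]
    rw [iter_sum]
    refine sum_congr rfl fun x _ => ?_
    rw [← Function.iterate_add_apply, ← iter_conv, ← two_mul]
  have e2 : ∑ x, F x * ∑ y, F y * q M (2 * n) (x - y) =
      ∑ x, ∑ y, F x * F y * (q M (2 * n) (x - y) - q M (2 * n) 0) := by
    have e3 : ∑ x, ∑ y, F x * F y * q M (2 * n) 0 = 0 := by
      have : ∀ x, ∑ y, F x * F y * q M (2 * n) 0 = F x * q M (2 * n) 0 * ∑ y, F y := by
        intro x
        rw [mul_sum]
        exact sum_congr rfl fun y _ => by ring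
      simp_rw [this, hsum]
      simp
    rw [← sub_zero (∑ x, F x * ∑ y, F y * q M (2 * n) (x - y)), ← e3, ← sum_sub_distrib]
    refine sum_congr rfl fun x _ => ?_
    rw [mul_sum, ← sum_sub_distrib]
    exact sum_congr rfl fun y _ => by ring
  rw [e1, e2]
  have hu3 : uZ n ≤ 1 / (3 * (n : ℝ)) := (targetK0'.2 n hn).2
  have hnn : 0 ≤ (∑ x, |F x|) * ∑ x, |F x| * nrm2 x := by
    have : ∀ x : Tor M, 0 ≤ nrm2 x := fun x => by unfold nrm2; positivity
    have h1 : 0 ≤ ∑ x, |F x| := sum_nonneg fun x _ => abs_nonneg _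
    have h2 : 0 ≤ ∑ x, |F x| * nrm2 x := sum_nonneg fun x _ => mul_nonneg (abs_nonneg _) (this x)
    positivity
  calc ∑ x, ∑ y, F x * F y * (q M (2 * n) (x - y) - q M (2 * n) 0)
      ≤ ∑ x, ∑ y, uZ n / (4 * n) * (|F x| * |F y| * (2 * nrm2 x + 2 * nrm2 y)) :=
        sum_le_sum fun x _ => sum_le_sum fun y _ => key x y
    _ = uZ n / n * ((∑ x, |F x|) * ∑ x, |F x| * nrm2 x) := by
      have a1 : ∑ x, ∑ y, |F x| * |F y| * (2 * nrm2 x + 2 * nrm2 y) =
          4 * ((∑ x, |F x|) * ∑ x, |F x| * nrm2 x) := by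
        have b1 : ∀ x y : Tor M, |F x| * |F y| * (2 * nrm2 x + 2 * nrm2 y) =
            2 * ((|F x| * nrm2 x) * |F y|) + 2 * (|F x| * (|F y| * nrm2 y)) := fun x y => by ring
        simp_rw [b1, sum_add_distrib, ← mul_sum, ← sum_mul]
        ring
      simp_rw [← mul_sum]
      rw [a1]
      ring
    _ ≤ 1 / (3 * (n : ℝ)) / n * ((∑ x, |F x|) * ∑ x, |F x| * nrm2 x) := by gcongr
    _ = 1 / (3 * (n : ℝ) ^ 2) * (∑ x, |F x|) * ∑ x, |F x| * nrm2 x := by
      rw [div_div, show 3 * (n : ℝ) * n = 3 * (n : ℝ) ^ 2 by ring]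
      ring

end Pool.Agent.H9.QC
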