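import Pool.Agent.H95.QC.Chain
import Pool.Agent.H9.QC.K12

/-!
# Energies on the good events: module D2 of MP_f3a553_pr
-/

set_option autoImplicit false

open MeasureTheory ProbabilityTheory Filter Topology
open scoped ENNReal NNReal BigOperators

namespace Pool.Agent.H9.QC

open Pool.Agent.H95 Pool.Agent.H95.QC

/-- the constant of P1, part (b) -/
def P1b (r : ℕ) (C : ℝ) : Prop :=
  ∀ (M T T' : ℕ) [NeZero M] (ν : Measure ℝ≥0) (s : ℝ) (μ : Tor M → ℝ),
    Wt ν s → 0 < s → s ≤ 1 - s * Rn T → 1 ≤ T → T' ≤ r * T → 2 * (T + T') < M →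
    (∀ x, 0 ≤ μ x) → ∑ x, μ x = 1 →
    ∫⁻ w, ENNReal.ofReal (En M T' (evo (st M) 1 T w μ)) ∂(env (Tor M) ν)
      ≤ ENNReal.ofReal (C * (1 + (s / (1 - s * Rn T)) * En M T μ))

/-- block lengths -/
theorem grid_len {Λ N K : ℕ} {n : ℕ → ℕ} (hΛ : 2 ≤ Λ) (h : Grid Λ N K n) {i : ℕ} (hi : i < K) :
    1 ≤ n (i + 1) - n i ∧ n (i + 1) ≤ 2 * (n (i + 1) - n i) := by
  rcases Nat.eq_zero_or_pos i with h0 | h0
  · subst h0
    rw [h.zero]
    have := h.one.1
    simp only [zero_add] at *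
    omega
  · have h1 := (h.ratio i h0 hi).1
    have h2 := h.pos (by omega) h0 hi.le
    have h3 : 2 * n i ≤ Λ * n i := Nat.mul_le_mul_right _ hΛ
    omega

theorem grid_ratio {Λ N K : ℕ} {n : ℕ → ℕ} (hΛ : 2 ≤ Λ) (h : Grid Λ N K n) {i : ℕ}
    (hi : i + 1 < K) : n (i + 2) - n (i + 1) ≤ 4 * Λ * (n (i + 1) - n i) := by
  have h1 := (h.ratio (i + 1) (by omega) hi).2
  have h2 := (grid_len hΛ h (i := i) (by omega)).2
  have h3 : 2 * Λ * n (i + 1) ≤ 2 * Λ * (2 * (n (i + 1) - n i)) := Nat.mul_le_mul_left _ h2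
  have h4 : 2 * Λ * (2 * (n (i + 1) - n i)) = 4 * Λ * (n (i + 1) - n i) := by ring
  have h5 : n (i + 1 + 1) = n (i + 2) := rfl
  omega

theorem D_bounds {N : ℕ} {s B : ℝ} (hs : 0 < s) (hB : 1 ≤ B) (hb : B ≤ (1 - s * Rn N) / s) {T : ℕ}
    (hT : T ≤ N) : s ≤ 1 - s * Rn T ∧ s / (1 - s * Rn T) ≤ 1 / B ∧ 0 < 1 - s * Rn T ∧
      s / (1 - s * Rn T) ≤ s / (1 - s * Rn N) := by
  have h1 : 1 - s * Rn N ≤ 1 - s * Rn T := D_anti hs.le hT
  rw [le_div_iff₀ hs] at hb
  have h2 : s ≤ 1 - s * Rn N := le_trans (by nlinarith) hb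
  have h3 : 0 < 1 - s * Rn T := by linarith
  refine ⟨h2.trans h1, ?_, h3, ?_⟩
  · rw [div_le_div_iff₀ h3 (by linarith)]
    linarith
  · exact div_le_div_of_nonneg_left hs.le (by linarith) h1

section

variable {M : ℕ} [NeZero M]

theorem ratio_le {n : ℕ → ℕ} {θ : ℝ} (hθ : 0 < θ) (hn0 : n 0 = 0) {i : ℕ}
    (hi : n i ≤ n (i + 1)) {w : ℕ → Tor M → ℝ≥0} (hw : Good M n θ (i + 1) w) (T' : ℕ) :
    En M T' (mu M (n (i + 1)) w) ≤
      (θ ^ 2)⁻¹ * En M T' (evo (st M) 1 (n (i + 1) - n i) (shift (n i) w) (mu M (n i) w)) := by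
  have hw' := (Good_succ M n θ i w).1 hw
  have hpos : 0 < WW M (n i) w := hw'.1.pos M hn0 hθ
  have e : n (i + 1) = n i + (n (i + 1) - n i) := by omega
  have hW := WW_split M (n i) (n (i + 1) - n i) w hpos.ne'
  have hmu := mu_split M (n i) (n (i + 1) - n i) w hpos.ne'
  rw [← e] at hW hmu
  set ζ := Z (st M) 1 (n (i + 1) - n i) (shift (n i) w) (mu M (n i) w) with hζ
  have h1 : θ ≤ ζ := by
    have := hw'.2
    rw [hW, mul_comm] at this
    exact le_of_mul_le_mul_left this hpos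
  rw [hmu, En_smul]
  refine mul_le_mul_of_nonneg_right ?_ (En_nonneg M _ _)
  rw [inv_pow]
  exact inv_anti₀ (by positivity) (pow_le_pow_left₀ hθ.le h1 2)

theorem measurable_evo_mu (M : ℕ) [NeZero M] (T t : ℕ) :
    Measurable (fun a : (ℕ → Tor M → ℝ≥0) × (ℕ → Tor M → ℝ≥0) =>
      evo (st M) 1 T a.2 (mu M t a.1)) := by
  have h : Measurable (fun a : (ℕ → Tor M → ℝ≥0) × (ℕ → Tor M → ℝ≥0) =>
      ((a.2, mu M t a.1) : (ℕ → Tor M → ℝ≥0) × (Tor M → ℝ))) :=
    measurable_snd.prodMk ((measurable_mu M t).comp measurable_fst)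
  exact (measurable_evo (st M) 1 T).comp h

/-- one block -/
theorem block_step {Λ N K : ℕ} {n : ℕ → ℕ} {ν : Measure ℝ≥0} {s θ C₁ B : ℝ} (hΛ : 2 ≤ Λ)
    (hθ : 0 < θ) (hC₁ : P1b (4 * Λ) C₁) (hC₁0 : 0 < C₁) (hG : Grid Λ N K n) (hw : Wt ν s)
    (hs : 0 < s) (hB : 1 ≤ B) (hb : B ≤ (1 - s * Rn N) / s) (hM : 8 * N < M) {i : ℕ}
    (hi : i + 1 < K) {A : Set (ℕ → Tor M → ℝ≥0)} (hA : MeasurableSet A)
    (hAdep : DepLt (n i) (fun w => w ∈ A)) (hAG : ∀ w ∈ A, Good M n θ i w) :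
    ∫⁻ w in A ∩ {w | Good M n θ (i + 1) w},
      ENNReal.ofReal (En M (n (i + 2) - n (i + 1)) (mu M (n (i + 1)) w)) ∂(env (Tor M) ν) ≤
    ∫⁻ w in A, ENNReal.ofReal ((θ ^ 2)⁻¹ * C₁ * (1 + (s / (1 - s * Rn (n (i + 1) - n i))) *
      En M (n (i + 1) - n i) (mu M (n i) w))) ∂(env (Tor M) ν) := by
  have hp := hw.prob
  have hmono : n i ≤ n (i + 1) := hG.mono_succ (by omega) (by omega)
  have hlen := grid_len hΛ hG (i := i) (by omega)
  have hN1 : n (i + 1) ≤ N := hG.le_N (by omega) (by omega)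
  have hN2 : n (i + 2) ≤ N := hG.le_N (by omega) (by omega)
  have hmono2 : n (i + 1) ≤ n (i + 2) := hG.mono_succ (by omega) hi
  obtain ⟨hD1, -, -, -⟩ := D_bounds hs hB hb (T := n (i + 1) - n i) (by omega)
  set T := n (i + 1) - n i with hT
  set T' := n (i + 2) - n (i + 1) with hT'
  calc ∫⁻ w in A ∩ {w | Good M n θ (i + 1) w},
      ENNReal.ofReal (En M T' (mu M (n (i + 1)) w)) ∂(env (Tor M) ν)
      ≤ ∫⁻ w in A ∩ {w | Good M n θ (i + 1) w},
          ENNReal.ofReal ((θ ^ 2)⁻¹ * En M T' (evo (st M) 1 T (shift (n i) w) (mu M (n i) w)))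
            ∂(env (Tor M) ν) := by
        refine setLIntegral_mono' (hA.inter (measurableSet_Good M n θ (i + 1))) fun w hw => ?_
        exact ENNReal.ofReal_le_ofReal (ratio_le hθ hG.zero hmono hw.2 T')
    _ ≤ ∫⁻ w in A, ENNReal.ofReal ((θ ^ 2)⁻¹ *
          En M T' (evo (st M) 1 T (shift (n i) w) (mu M (n i) w))) ∂(env (Tor M) ν) :=
        lintegral_mono_set Set.inter_subset_left
    _ ≤ _ := by
        refine setLIntegral_split_le (t := n i) hA hAdep
          (H := fun w w' => ENNReal.ofReal ((θ ^ 2)⁻¹ *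
            En M T' (evo (st M) 1 T w' (mu M (n i) w)))) ?_ ?_ ?_
        · refine ENNReal.measurable_ofReal.comp (Measurable.const_mul ?_ _)
          exact (measurable_En M T').comp (measurable_evo_mu M T (n i))
        · intro w' x x' hx
          simp only [mu_depLt M (n i) x x' hx]
        · intro w hwA
          have hg := hAG w hwA
          have hpos : 0 < WW M (n i) w := hg.pos M hG.zero hθ
          have hc : (0 : ℝ) ≤ (θ ^ 2)⁻¹ := by positivity
          simp_rw [ENNReal.ofReal_mul hc]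
          rw [lintegral_const_mul' _ _ ENNReal.ofReal_ne_top]
          have h1 := hC₁ M T T' ν s (mu M (n i) w) hw hs hD1 hlen.1 (grid_ratio hΛ hG hi)
            (by omega) (mu_nonneg M (n i) w) (sum_mu M (n i) w hpos.ne')
          refine (mul_le_mul_right h1 _).trans ?_
          rw [← ENNReal.ofReal_mul hc, ← mul_assoc]

/-- integrals of affine functions -/
theorem setLIntegral_affine {Ω : Type*} [MeasurableSpace Ω] (P : Measure Ω) {A : Set Ω}
    {c d : ℝ} (hc : 0 ≤ c) (hd : 0 ≤ d) {X : Ω → ℝ} (hX : ∀ w, 0 ≤ X w) :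
    ∫⁻ w in A, ENNReal.ofReal (c * (1 + d * X w)) ∂P =
      ENNReal.ofReal c * (P A + ENNReal.ofReal d * ∫⁻ w in A, ENNReal.ofReal (X w) ∂P) := by
  simp_rw [ENNReal.ofReal_mul hc]
  rw [lintegral_const_mul' _ _ ENNReal.ofReal_ne_top]
  congr 1
  have : ∀ w, ENNReal.ofReal (1 + d * X w) = 1 + ENNReal.ofReal d * ENNReal.ofReal (X w) := by
    intro w
    rw [ENNReal.ofReal_add zero_le_one (mul_nonneg hd (hX w)), ENNReal.ofReal_mul hd,
      ENNReal.ofReal_one]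
  simp_rw [this]
  rw [lintegral_add_left measurable_const, lintegral_const_mul' _ _ ENNReal.ofReal_ne_top]
  simp

theorem mu_zero (w : ℕ → Tor M → ℝ≥0) : mu M 0 w = dl 0 := by
  unfold mu
  rw [WW_zero, inv_one, one_smul]
  rfl

theorem En_dl {T : ℕ} (hT : 2 * T < M) : En M T (dl 0) = Rn T := by
  unfold En Rn
  refine Finset.sum_congr rfl fun j hj => ?_
  rw [Finset.mem_Icc] at hj
  exact targetK1 M j (by omega)

end

theorem uZ_le_one (n : ℕ) : uZ n ≤ 1 := by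
  rcases Nat.eq_zero_or_pos n with h | h
  · rw [h, uZ_zero]
  · refine ((uZ_bounds n h).2).trans ?_
    rw [div_le_one (by positivity)]
    have : (0 : ℝ) ≤ n := Nat.cast_nonneg n
    linarith

theorem Rn_le (n : ℕ) : Rn n ≤ n := by
  unfold Rn
  calc ∑ j ∈ Finset.Icc 1 n, uZ j ≤ ∑ _j ∈ Finset.Icc 1 n, (1 : ℝ) :=
        Finset.sum_le_sum fun j _ => uZ_le_one j
    _ = n := by simp

theorem targetD2_of (hP1 : TargetP1) : TargetD2 := by
  intro Λ θ hΛ hθ hθ1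
  obtain ⟨C₁, hC₁, hP⟩ := hP1 (4 * Λ)
  have hP' : P1b (4 * Λ) C₁ := fun M T T' _ ν s μ h1 h2 h3 h4 h5 h6 h7 h8 =>
    (hP M T T' ν s μ h1 h2 h3 h4 h5 h6 h7 h8).2
  have hΛ0 : (0 : ℝ) < Λ := by exact_mod_cast (by omega : 0 < Λ)
  set C : ℝ := Λ + 2 * ((θ ^ 2)⁻¹ * C₁) with hC
  have hC0 : 0 < C := by positivity
  refine ⟨C, C + 1, hC0, by linarith, ?_⟩
  intro M N K _ n ν s hG hw hs hb hM i hi
  have hp := hw.prob
  have hB1 : (1 : ℝ) ≤ C + 1 := by linarith
  induction i with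
  | zero =>
    rw [hG.zero]
    simp_rw [mu_zero]
    have h1 : n (0 + 1) ≤ N := hG.le_N (by omega) (by omega)
    rw [En_dl (by omega)]
    rw [setLIntegral_const]
    calc ENNReal.ofReal (Rn (n (0 + 1) - 0)) * (env (Tor M) ν) {w | Good M n θ 0 w}
        ≤ ENNReal.ofReal C * 1 := by
          refine mul_le_mul' (ENNReal.ofReal_le_ofReal ?_) prob_le_one
          have h2 : (n (0 + 1) : ℝ) ≤ Λ := by exact_mod_cast hG.one.2
          have h3 := Rn_le (n (0 + 1))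
          have h4 : 0 ≤ (θ ^ 2)⁻¹ * C₁ := by positivity
          simp only [Nat.sub_zero]
          linarith
      _ = _ := mul_one _
  | succ i ih =>
    have ih' := ih (by omega)
    have h1 := block_step (M := M) hΛ hθ hP' hC₁ hG hw hs hB1 hb hM hi
      (A := {w | Good M n θ i w}) (measurableSet_Good M n θ i)
      (Good_depLt M (fun j hj => hG.mono (by omega) hj (by omega)) θ) (fun w hw => hw)
    have e : {w : ℕ → Tor M → ℝ≥0 | Good M n θ i w} ∩ {w | Good M n θ (i + 1) w} =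
        {w | Good M n θ (i + 1) w} := by
      ext w
      exact ⟨fun h => h.2, fun h => ⟨h.mono M (by omega), h⟩⟩
    rw [e] at h1
    refine h1.trans ?_
    have hN1 : n (i + 1) ≤ N := hG.le_N (by omega) (by omega)
    obtain ⟨-, hD2, hD3, -⟩ := D_bounds hs hB1 hb (T := n (i + 1) - n i) (by omega)
    have hd0 : 0 ≤ s / (1 - s * Rn (n (i + 1) - n i)) := div_nonneg hs.le hD3.le
    rw [setLIntegral_affine (env (Tor M) ν) (by positivity) hd0 (fun w => En_nonneg M _ _)]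
    have h3 : ENNReal.ofReal (s / (1 - s * Rn (n (i + 1) - n i))) *
        ∫⁻ w in {w | Good M n θ i w}, ENNReal.ofReal (En M (n (i + 1) - n i) (mu M (n i) w))
          ∂(env (Tor M) ν) ≤ 1 := by
      calc _ ≤ ENNReal.ofReal (1 / (C + 1)) * ENNReal.ofReal C :=
            mul_le_mul' (ENNReal.ofReal_le_ofReal hD2) ih'
        _ = ENNReal.ofReal (1 / (C + 1) * C) := (ENNReal.ofReal_mul (by positivity)).symm
        _ ≤ ENNReal.ofReal 1 := by
          refine ENNReal.ofReal_le_ofReal ?_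
          rw [div_mul_eq_mul_div, one_mul, div_le_one (by positivity)]
          linarith
        _ = 1 := ENNReal.ofReal_one
    calc ENNReal.ofReal ((θ ^ 2)⁻¹ * C₁) * ((env (Tor M) ν) {w | Good M n θ i w} +
          ENNReal.ofReal (s / (1 - s * Rn (n (i + 1) - n i))) *
          ∫⁻ w in {w | Good M n θ i w}, ENNReal.ofReal (En M (n (i + 1) - n i) (mu M (n i) w))
          ∂(env (Tor M) ν)) ≤ ENNReal.ofReal ((θ ^ 2)⁻¹ * C₁) * (1 + 1) := by
          gcongr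
          exact prob_le_one
      _ = ENNReal.ofReal ((θ ^ 2)⁻¹ * C₁) * ENNReal.ofReal 2 := by norm_num
      _ = ENNReal.ofReal ((θ ^ 2)⁻¹ * C₁ * 2) := (ENNReal.ofReal_mul (by positivity)).symm
      _ ≤ ENNReal.ofReal C := ENNReal.ofReal_le_ofReal (by rw [hC]; linarith)

end Pool.Agent.H9.QC
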