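import Pool.Agent.H95.QC.Second
import Pool.Agent.H95.QC.Renewal
import Pool.Agent.H95.QC.Defs2
import Pool.Agent.H9.QC.K12
import Pool.Agent.H94.QC.K4

/-!
# Lower tail of a block partition function: module X of MP_f3a553_pr
-/

set_option autoImplicit false

open MeasureTheory ProbabilityTheory Filter Topology
open scoped ENNReal NNReal BigOperators

namespace Pool.Agent.H9.QC

open Pool.Agent.H95 Pool.Agent.H95.QC

section Core

variable {G : Type} [Fintype G] [DecidableEq G] [AddCommGroup G]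
variable (st : Fin 4 → G) (a : G → ℝ)

/-- squared mass -/
def msq {G : Type} [Fintype G] (F : G → ℝ) : ℝ := (∑ x, F x) ^ 2

omit [DecidableEq G] [AddCommGroup G] in
lemma sos_msq : IsSOS (msq : (G → ℝ) → ℝ) :=
  ⟨1, fun _ _ => 1, fun F => by simp [msq]⟩

lemma memLp_Z {ν : Measure ℝ≥0} {s : ℝ} (h : Wt ν s) (T : ℕ) (F : G → ℝ) :
    MemLp (fun w => Z st a T w F) 2 (env G ν) := by
  rw [memLp_two_iff_integrable_sq (measurable_Z_left st a T F).aestronglyMeasurable]
  exact (targetS1 G st a ν s h msq sos_msq T F).1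

lemma second_Z {ν : Measure ℝ≥0} {s : ℝ} (h : Wt ν s) (T : ℕ) (F : G → ℝ) :
    ∫ w, Z st a T w F ^ 2 ∂(env G ν) = qv st a s msq T F :=
  (targetS1 G st a ν s h msq sos_msq T F).2

lemma integral_coord {ν : Measure ℝ≥0} {s : ℝ} (h : Wt ν s) (y : G) :
    ∫ w, ((w 0 y : ℝ≥0) : ℝ) ∂(env G ν) = 1 := by
  have hp := h.prob
  have h1 : ∫ w, ((w 0 y : ℝ≥0) : ℝ) ∂(env G ν) =
      ∫ v, ((v y : ℝ≥0) : ℝ) ∂(Measure.pi (fun _ : G => ν)) := by
    unfold env
    have hm := measurePreserving_eval_infinitePi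
      (μ := fun _ : ℕ => (Measure.pi (fun _ : G => ν))) 0
    have hmeas : Measurable (fun v : G → ℝ≥0 => ((v y : ℝ≥0) : ℝ)) :=
      measurable_coe_nnreal_real.comp (measurable_pi_apply y)
    have e := integral_map (μ := Measure.infinitePi
      (fun _ : ℕ => (Measure.pi (fun _ : G => ν)))) hm.measurable.aemeasurable
      (f := fun v : G → ℝ≥0 => ((v y : ℝ≥0) : ℝ)) hmeas.aestronglyMeasurable
    rw [hm.map_eq] at e
    exact e.symm
  rw [h1]
  have hm2 := measurePreserving_eval (fun _ : G => ν) y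
  have h2 : ∫ v, ((v y : ℝ≥0) : ℝ) ∂(Measure.pi (fun _ : G => ν)) = ∫ t, (t : ℝ) ∂ν := by
    have e := integral_map (μ := Measure.pi (fun _ : G => ν)) hm2.measurable.aemeasurable
      (f := fun t : ℝ≥0 => (t : ℝ)) measurable_coe_nnreal_real.aestronglyMeasurable
    rw [hm2.map_eq] at e
    exact e.symm
  rw [h2, h.mean]

lemma mean_Z {ν : Measure ℝ≥0} {s : ℝ} (h : Wt ν s) (T : ℕ) (F : G → ℝ) :
    ∫ w, Z st a T w F ∂(env G ν) = ∑ x, (step st a)^[T] F x := by
  have hp := h.prob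
  have hint : ∀ (T : ℕ) (F : G → ℝ), Integrable (fun w => Z st a T w F) (env G ν) := fun T F =>
    (memLp_Z st a h T F).integrable (by norm_num)
  induction T generalizing F with
  | zero =>
    simp [Z, evo]
  | succ T ih =>
    have e1 : ∀ w : ℕ → G → ℝ≥0, Z st a (T + 1) w F =
        ∑ y, step st a F y * (((w 0 y : ℝ≥0) : ℝ) * Z st a T (shift 1 w) (dl y)) := by
      intro w
      have : Z st a (T + 1) w F = Z st a T (shift 1 w) (fun x => (w 0 x : ℝ) * step st a F x) := rfl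
      rw [this, Z_eq_sum]
      exact Finset.sum_congr rfl fun y _ => by ring
    have e2 : ∀ y : G, ∫ w, ((w 0 y : ℝ≥0) : ℝ) * Z st a T (shift 1 w) (dl y) ∂(env G ν) =
        ∫ w, Z st a T w (dl y) ∂(env G ν) := by
      intro y
      have := integral_mul_shift (ν := Measure.pi (fun _ : G => ν)) (t := 1)
        (f := fun w : ℕ → G → ℝ≥0 => ((w 0 y : ℝ≥0) : ℝ)) (g := fun w => Z st a T w (dl y))
        (fun x x' hx => by simp only [hx 0 one_pos])
        (measurable_coe_nnreal_real.comp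
          ((measurable_pi_apply y).comp (measurable_pi_apply 0))).aestronglyMeasurable
        (measurable_Z_left st a T (dl y)).aestronglyMeasurable
      rw [env, this]
      have h1 := integral_coord h y
      unfold env at h1
      rw [h1, one_mul]
    have hi : ∀ y : G, Integrable (fun w : ℕ → G → ℝ≥0 =>
        step st a F y * (((w 0 y : ℝ≥0) : ℝ) * Z st a T (shift 1 w) (dl y))) (env G ν) := by
      intro y
      have h1 := hint (T + 1) (Function.update 0 y 1)
      -- product of square integrable functions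
      have m1 : MemLp (fun w : ℕ → G → ℝ≥0 => ((w 0 y : ℝ≥0) : ℝ)) 2 (env G ν) := by
        have hm := measurePreserving_eval_infinitePi
          (μ := fun _ : ℕ => (Measure.pi (fun _ : G => ν))) 0
        have hm2 := measurePreserving_eval (fun _ : G => ν) y
        exact (h.memLp.comp_measurePreserving hm2).comp_measurePreserving hm
      have m2 : MemLp (fun w : ℕ → G → ℝ≥0 => Z st a T (shift 1 w) (dl y)) 2 (env G ν) :=
        (memLp_Z st a h T (dl y)).comp_measurePreserving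
          (measurePreserving_shift (Measure.pi (fun _ : G => ν)) 1)
      exact (m1.integrable_mul m2).const_mul _
    simp_rw [e1]
    rw [integral_finsetSum _ fun y _ => hi y]
    simp_rw [integral_const_mul, e2]
    rw [Function.iterate_succ_apply, ← ih (step st a F)]
    simp_rw [Z_eq_sum st a T _ (step st a F)]
    rw [integral_finsetSum _ fun y _ => (hint T (dl y)).const_mul _]
    simp_rw [integral_const_mul]

/-- expansion of the second moment -/
lemma qv_le {s B : ℝ} (hs : 0 ≤ s) (T : ℕ) (hB : ∀ k < T, ∀ y, qv st a s msq k (dl y) ≤ B)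
    (F : G → ℝ) : qv st a s msq T F ≤ (∑ x, (step st a)^[T] F x) ^ 2 +
      s * (B * ∑ j ∈ Finset.range T, Pool.Agent.H95.QC.sq ((step st a)^[j + 1] F)) := by
  induction T generalizing F with
  | zero => simp [qv, msq]
  | succ T ih =>
    have h1 := ih (fun k hk => hB k (by omega)) (step st a F)
    have h2 : ∑ x, step st a F x ^ 2 * qv st a s msq T (dl x) ≤ B * Pool.Agent.H95.QC.sq (step st a F) := by
      unfold Pool.Agent.H95.QC.sq
      rw [Finset.mul_sum]
      refine Finset.sum_le_sum fun x _ => ?_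
      rw [mul_comm]
      exact mul_le_mul_of_nonneg_right (hB T (by omega) x) (sq_nonneg _)
    have h3 : ∑ j ∈ Finset.range (T + 1), Pool.Agent.H95.QC.sq ((step st a)^[j + 1] F) =
        (∑ j ∈ Finset.range T, Pool.Agent.H95.QC.sq ((step st a)^[j + 1] (step st a F))) +
          Pool.Agent.H95.QC.sq (step st a F) := by
      rw [Finset.sum_range_succ']
      rfl
    rw [h3]
    have e : qv st a s msq (T + 1) F = qv st a s msq T (step st a F) +
      s * ∑ x, step st a F x ^ 2 * qv st a s msq T (dl x) := rfl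
    rw [e, Function.iterate_succ_apply]
    have h4 := mul_le_mul_of_nonneg_left h2 hs
    calc qv st a s msq T (step st a F) + s * ∑ x, step st a F x ^ 2 * qv st a s msq T (dl x)
        ≤ ((∑ x, (step st a)^[T] (step st a F) x) ^ 2 +
          s * (B * ∑ j ∈ Finset.range T, Pool.Agent.H95.QC.sq ((step st a)^[j + 1] (step st a F)))) +
          s * (B * Pool.Agent.H95.QC.sq (step st a F)) := add_le_add h1 h4
      _ = _ := by ring

variable {a}

lemma iter_le (ha0 : ∀ x, 0 ≤ a x) (ha1 : ∀ x, a x ≤ 1) {f g : G → ℝ} (hf : ∀ x, 0 ≤ f x)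
    (hfg : ∀ x, f x ≤ g x) (j : ℕ) (x : G) :
    0 ≤ (step st a)^[j] f x ∧ (step st a)^[j] f x ≤ (step st 1)^[j] g x := by
  induction j generalizing x with
  | zero => exact ⟨hf x, hfg x⟩
  | succ j ih =>
    rw [Function.iterate_succ_apply', Function.iterate_succ_apply']
    refine ⟨step_nonneg st a ha0 (fun y => (ih y).1) x, ?_⟩
    have h1 : step st 1 ((step st a)^[j] f) x ≤ step st 1 ((step st 1)^[j] g) x :=
      step_mono st 1 (fun _ => zero_le_one) (fun y => (ih y).2) x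
    refine le_trans ?_ h1
    unfold Pool.Agent.H95.QC.step
    rw [Pi.one_apply]
    refine mul_le_mul_of_nonneg_right (ha1 x) ?_
    exact div_nonneg (Finset.sum_nonneg fun i _ => (ih _).1) (by norm_num)

lemma sum_iter_one (f : G → ℝ) (j : ℕ) : ∑ x, (step st 1)^[j] f x = ∑ x, f x := by
  induction j with
  | zero => rfl
  | succ j ih => rw [Function.iterate_succ_apply', sum_step_one, ih]

lemma sq_mono {f g : G → ℝ} (h : ∀ x, 0 ≤ f x ∧ f x ≤ g x) : Pool.Agent.H95.QC.sq f ≤ Pool.Agent.H95.QC.sq g :=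
  Finset.sum_le_sum fun x _ => pow_le_pow_left₀ (h x).1 (h x).2 2

/-- superadditivity -/
lemma evo_super {b : G → ℝ} (ha0 : ∀ x, 0 ≤ a x) (ha1 : ∀ x, a x ≤ 1) (hb0 : ∀ x, 0 ≤ b x)
    (hb1 : ∀ x, b x ≤ 1) (T : ℕ) (w : ℕ → G → ℝ≥0) {f g h : G → ℝ} (hf : ∀ x, 0 ≤ f x)
    (hg : ∀ x, 0 ≤ g x) (hh : ∀ x, f x + g x ≤ h x) (x : G) :
    evo st a T w f x + evo st b T w g x ≤ evo st 1 T w h x := by
  induction T generalizing w f g h with
  | zero => exact hh x
  | succ T ih =>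
    simp only [evo]
    refine ih _ (fun y => mul_nonneg (w 0 y).coe_nonneg (step_nonneg st a ha0 hf y))
      (fun y => mul_nonneg (w 0 y).coe_nonneg (step_nonneg st b hb0 hg y)) (fun y => ?_)
    rw [← mul_add]
    refine mul_le_mul_of_nonneg_left ?_ (w 0 y).coe_nonneg
    unfold Pool.Agent.H95.QC.step
    rw [Pi.one_apply, one_mul]
    have h1 : 0 ≤ (∑ i, f (y - st i)) / 4 :=
      div_nonneg (Finset.sum_nonneg fun i _ => hf _) (by norm_num)
    have h2 : 0 ≤ (∑ i, g (y - st i)) / 4 :=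
      div_nonneg (Finset.sum_nonneg fun i _ => hg _) (by norm_num)
    have h3 : (∑ i, f (y - st i)) / 4 + (∑ i, g (y - st i)) / 4 ≤ (∑ i, h (y - st i)) / 4 := by
      rw [← add_div, ← Finset.sum_add_distrib]
      exact div_le_div_of_nonneg_right (Finset.sum_le_sum fun i _ => hh _) (by norm_num)
    have h4 := mul_le_of_le_one_left h1 (ha1 y)
    have h5 := mul_le_of_le_one_left h2 (hb1 y)
    linarith

lemma evo_congr_mask (T : ℕ) (w w' : ℕ → G → ℝ≥0)
    (h : ∀ k < T, ∀ x, a x ≠ 0 → w k x = w' k x) (F : G → ℝ) :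
    evo st a T w F = evo st a T w' F := by
  induction T generalizing w w' F with
  | zero => rfl
  | succ T ih =>
    simp only [evo]
    have e : (fun x => (w 0 x : ℝ) * step st a F x) = fun x => (w' 0 x : ℝ) * step st a F x := by
      funext x
      by_cases hx : a x = 0
      · simp [Pool.Agent.H95.QC.step, hx]
      · rw [h 0 (by omega) x hx]
    rw [e]
    exact ih _ _ (fun k hk x hx => h (k + 1) (by omega) x hx) _

/-- extension of a configuration on a finite set of sites -/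
noncomputable def ext (S : Finset (ℕ × G)) (α : S → ℝ≥0) : ℕ → G → ℝ≥0 := fun k x =>
  if h : (k, x) ∈ S then α ⟨(k, x), h⟩ else 0

omit [AddCommGroup G] [Fintype G] in
lemma measurable_ext (S : Finset (ℕ × G)) : Measurable (ext S) := by
  refine measurable_pi_lambda _ fun k => measurable_pi_lambda _ fun x => ?_
  unfold ext
  by_cases h : (k, x) ∈ S
  · simp only [h, dif_pos]
    exact measurable_pi_apply _
  · simp only [h, dif_neg, not_false_eq_true]
    exact measurable_const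

lemma indep_masks {ν : Measure ℝ≥0} [IsProbabilityMeasure ν] {b : G → ℝ}
    (hab : ∀ x, a x = 0 ∨ b x = 0) (T : ℕ) (F F' : G → ℝ) :
    IndepFun (fun w => Z st a T w F) (fun w => Z st b T w F') (env G ν) := by
  classical
  have hI : iIndepFun (fun (p : ℕ × G) (w : ℕ → G → ℝ≥0) => w p.1 p.2) (env G ν) := by
    have := iIndepFun_uncurry_infinitePi' (X := fun (_ : ℕ) (_ : G) (x : ℝ≥0) => x)
      (fun (_ : ℕ) (_ : G) => ν) (by fun_prop)
    simp only [Measure.infinitePi_eq_pi] at this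
    exact this
  let S : (G → ℝ) → Finset (ℕ × G) := fun c => Finset.range T ×ˢ Finset.univ.filter (c · ≠ 0)
  have hdisj : Disjoint (S a) (S b) := by
    rw [Finset.disjoint_left]
    rintro ⟨k, x⟩ h1 h2
    simp only [S, Finset.mem_product, Finset.mem_filter, Finset.mem_univ, true_and] at h1 h2
    rcases hab x with h | h
    · exact h1.2 h
    · exact h2.2 h
  have h1 := hI.indepFun_finset (S a) (S b) hdisj (fun p => by fun_prop)
  have key : ∀ (c F : G → ℝ), (fun w => Z st c T w F) =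
      (fun α => Z st c T (ext (S c) α) F) ∘ fun (w : ℕ → G → ℝ≥0) (i : S c) => w i.1.1 i.1.2 := by
    intro c F
    funext w
    simp only [Function.comp_apply, Z]
    rw [evo_congr_mask (a := c) st T w (ext (S c) fun i => w i.1.1 i.1.2)]
    intro k hk x hx
    unfold ext
    have : (k, x) ∈ S c := by
      simp only [S, Finset.mem_product, Finset.mem_filter, Finset.mem_univ, true_and]
      exact ⟨Finset.mem_range.2 hk, hx⟩
    rw [dif_pos this]
  rw [key a F, key b F']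
  exact h1.comp ((measurable_Z_left st a T F).comp (measurable_ext _))
    ((measurable_Z_left st b T F').comp (measurable_ext _))

end Core

/-! ## on the torus -/

theorem sq_iter_dl {M : ℕ} [NeZero M] {j : ℕ} (hj : 2 * j < M) (y : Tor M) :
    Pool.Agent.H95.QC.sq ((step (st M) 1)^[j] (dl y)) = uZ j := by
  rw [← targetK1 M j hj]
  unfold Pool.Agent.H95.QC.sq
  have : ∀ x, (step (st M) 1)^[j] (dl y) x = q M j (x - y) := by
    intro x
    rw [iter_conv]
    unfold dl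
    simp [Pi.single_apply]
  simp_rw [this]
  exact Fintype.sum_equiv (Equiv.subRight y) _ _ fun x => rfl

theorem iter_q {M : ℕ} (j n : ℕ) : (step (st M) 1)^[j] (q M n) = q M (j + n) := by
  unfold q
  rw [Function.iterate_add_apply]

theorem q_nonneg (M n : ℕ) (x : Tor M) : 0 ≤ q M n x := by
  rw [q_eq]
  exact mul_nonneg (bk_nonneg _ _ _) (bk_nonneg _ _ _)

theorem qv_dl_le {M T : ℕ} [NeZero M] {s : ℝ} (hs : 0 ≤ s) (hT : 2 * T < M)
    (hD : 0 < 1 - s * Rn T) {a : Tor M → ℝ} (ha0 : ∀ x, 0 ≤ a x) (ha1 : ∀ x, a x ≤ 1) (k : ℕ)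
    (hk : k ≤ T) (y : Tor M) : qv (st M) a s msq k (dl y) ≤ 1 / (1 - s * Rn T) := by
  induction k using Nat.strong_induction_on generalizing y with
  | _ k ih =>
    have hdl : ∀ x, 0 ≤ (dl y : Tor M → ℝ) x := by
      intro x; unfold dl; rw [Pi.single_apply]; split_ifs <;> norm_num
    have hB : 0 < 1 / (1 - s * Rn T) := by positivity
    have h1 := qv_le (st M) a hs k (B := 1 / (1 - s * Rn T))
      (fun l hl z => ih l hl (by omega) z) (dl y)
    refine h1.trans ?_
    have h2 : ∀ j, ∀ x, 0 ≤ (step (st M) a)^[j] (dl y) x ∧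
        (step (st M) a)^[j] (dl y) x ≤ (step (st M) 1)^[j] (dl y) x := fun j x =>
      iter_le (st M) ha0 ha1 hdl (fun _ => le_rfl) j x
    have h3 : (∑ x, (step (st M) a)^[k] (dl y) x) ≤ 1 := by
      calc (∑ x, (step (st M) a)^[k] (dl y) x) ≤ ∑ x, (step (st M) 1)^[k] (dl y) x :=
            Finset.sum_le_sum fun x _ => (h2 k x).2
        _ = ∑ x, (dl y : Tor M → ℝ) x := sum_iter_one _ _ _
        _ = 1 := by unfold dl; simp
    have h4 : 0 ≤ ∑ x, (step (st M) a)^[k] (dl y) x := Finset.sum_nonneg fun x _ => (h2 k x).1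
    have h5 : ∑ j ∈ Finset.range k, Pool.Agent.H95.QC.sq ((step (st M) a)^[j + 1] (dl y)) ≤ Rn T := by
      calc ∑ j ∈ Finset.range k, Pool.Agent.H95.QC.sq ((step (st M) a)^[j + 1] (dl y))
          ≤ ∑ j ∈ Finset.range k, uZ (j + 1) := by
            refine Finset.sum_le_sum fun j hj => ?_
            have hj' := Finset.mem_range.1 hj
            rw [← sq_iter_dl (M := M) (j := j + 1) (by omega) y]
            exact sq_mono (h2 (j + 1))
        _ = Rn k := by unfold Rn; rw [sum_Icc_one]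
        _ ≤ Rn T := Rn_mono hk
    calc (∑ x, (step (st M) a)^[k] (dl y) x) ^ 2 +
        s * (1 / (1 - s * Rn T) * ∑ j ∈ Finset.range k, Pool.Agent.H95.QC.sq ((step (st M) a)^[j + 1] (dl y)))
        ≤ 1 ^ 2 + s * (1 / (1 - s * Rn T) * Rn T) := by gcongr
      _ = 1 / (1 - s * Rn T) := by field_simp; ring

/-- variance of a masked partition function started from the masked kernel -/
theorem var_le {M n T r : ℕ} [NeZero M] {ν : Measure ℝ≥0} {s : ℝ} (h : Wt ν s) (hn : 1 ≤ n)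
    (hT : T ≤ r * n) (hM : 2 * (n + T) < M) (hD : 0 < 1 - s * Rn T) {a : Tor M → ℝ}
    (ha0 : ∀ x, 0 ≤ a x) (ha1 : ∀ x, a x ≤ 1) :
    variance (fun w => Z (st M) a T w (fun y => a y * q M n y)) (env (Tor M) ν) ≤
      (r : ℝ) / 3 * (s / (1 - s * Rn T)) := by
  have hp := h.prob
  set F : Tor M → ℝ := fun y => a y * q M n y with hF
  have hF0 : ∀ x, 0 ≤ F x := fun x => mul_nonneg (ha0 x) (q_nonneg M n x)
  have hF1 : ∀ x, F x ≤ q M n x := fun x => mul_le_of_le_one_left (q_nonneg M n x) (ha1 x)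
  have h2 : ∀ j, ∀ x, 0 ≤ (step (st M) a)^[j] F x ∧
      (step (st M) a)^[j] F x ≤ (step (st M) 1)^[j] (q M n) x := fun j x =>
    iter_le (st M) ha0 ha1 hF0 hF1 j x
  have hn0 : (0 : ℝ) < n := by exact_mod_cast hn
  rw [variance_eq_sub (memLp_Z (st M) a h T F)]
  have e1 : ∫ w, ((fun w => Z (st M) a T w F) ^ 2) w ∂(env (Tor M) ν) = qv (st M) a s msq T F :=
    second_Z (st M) a h T F
  rw [e1, mean_Z (st M) a h T F]
  have hq := qv_le (st M) a h.nonneg T (B := 1 / (1 - s * Rn T))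
    (fun k hk y => qv_dl_le h.nonneg (by omega) hD ha0 ha1 k hk.le y) F
  have h5 : ∑ j ∈ Finset.range T, Pool.Agent.H95.QC.sq ((step (st M) a)^[j + 1] F) ≤ (r : ℝ) / 3 := by
    calc ∑ j ∈ Finset.range T, Pool.Agent.H95.QC.sq ((step (st M) a)^[j + 1] F)
        ≤ ∑ j ∈ Finset.range T, 1 / (3 * (n : ℝ)) := by
          refine Finset.sum_le_sum fun j hj => ?_
          have hj' := Finset.mem_range.1 hj
          refine (sq_mono (h2 (j + 1))).trans ?_
          rw [iter_q, targetK1 M (j + 1 + n) (by omega)]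
          refine ((targetK0'.2 (j + 1 + n) (by omega)).2).trans ?_
          refine one_div_le_one_div_of_le (by positivity) ?_
          push_cast
          have : (0 : ℝ) ≤ (j : ℝ) := Nat.cast_nonneg j
          linarith
      _ = T * (1 / (3 * (n : ℝ))) := by rw [Finset.sum_const, Finset.card_range, nsmul_eq_mul]
      _ ≤ (r * n : ℝ) * (1 / (3 * (n : ℝ))) := by
          gcongr
          exact_mod_cast hT
      _ = (r : ℝ) / 3 := by field_simp
  have h6 : s * (1 / (1 - s * Rn T) * ∑ j ∈ Finset.range T, Pool.Agent.H95.QC.sq ((step (st M) a)^[j + 1] F)) ≤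
      s * (1 / (1 - s * Rn T) * ((r : ℝ) / 3)) := by
    have := h.nonneg
    gcongr
  have h7 : s * (1 / (1 - s * Rn T) * ((r : ℝ) / 3)) = (r : ℝ) / 3 * (s / (1 - s * Rn T)) := by
    ring
  linarith

theorem hp_hm_le {M : ℕ} (x : Tor M) : hp M x + hm M x ≤ 1 := by
  unfold hp hm
  split_ifs <;> norm_num
  omega

theorem hp_bounds {M : ℕ} (x : Tor M) : 0 ≤ hp M x ∧ hp M x ≤ 1 := by
  unfold hp
  split_ifs <;> norm_num

theorem hm_bounds {M : ℕ} (x : Tor M) : 0 ≤ hm M x ∧ hm M x ≤ 1 := by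
  unfold hm
  split_ifs <;> norm_num

theorem tail_one {M n T r : ℕ} [NeZero M] {ν : Measure ℝ≥0} {s : ℝ} (h : Wt ν s) (hn : 1 ≤ n)
    (hT : T ≤ r * n) (hM : 2 * (n + T) < M) (hD : 0 < 1 - s * Rn T) {a : Tor M → ℝ}
    (ha0 : ∀ x, 0 ≤ a x) (ha1 : ∀ x, a x ≤ 1) {m0 p : ℝ} (hm0 : 0 < m0) (hpm : p ≤ m0 / 2)
    (hmean : m0 ≤ ∑ x, (step (st M) a)^[T] (fun y => a y * q M n y) x) :
    env (Tor M) ν {w | Z (st M) a T w (fun y => a y * q M n y) < p} ≤
      ENNReal.ofReal ((4 * (r : ℝ) / (3 * m0 ^ 2) + 1) * (s / (1 - s * Rn T))) := by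
  have hp := h.prob
  set F : Tor M → ℝ := fun y => a y * q M n y with hF
  have hmem := memLp_Z (st M) a h T F
  have hc := meas_ge_le_variance_div_sq hmem (c := m0 / 2) (by positivity)
  have hv := var_le h hn hT hM hD ha0 ha1
  have hsD : 0 ≤ s / (1 - s * Rn T) := div_nonneg h.nonneg hD.le
  have hsub : {w | Z (st M) a T w F < p} ⊆
      {w | m0 / 2 ≤ |Z (st M) a T w F - ∫ w, Z (st M) a T w F ∂(env (Tor M) ν)|} := by
    intro w hw
    have hw' : Z (st M) a T w F < p := hw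
    show m0 / 2 ≤ |Z (st M) a T w F - ∫ w, Z (st M) a T w F ∂(env (Tor M) ν)|
    rw [mean_Z (st M) a h T F, abs_sub_comm]
    refine le_trans ?_ (le_abs_self _)
    linarith
  refine (measure_mono hsub).trans (hc.trans (ENNReal.ofReal_le_ofReal ?_))
  rw [div_le_iff₀ (by positivity)]
  refine hv.trans ?_
  have e : (4 * (r : ℝ) / (3 * m0 ^ 2) + 1) * (s / (1 - s * Rn T)) * (m0 / 2) ^ 2 =
      (r : ℝ) / 3 * (s / (1 - s * Rn T)) + (m0 / 2) ^ 2 * (s / (1 - s * Rn T)) := by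
    field_simp
    ring
  rw [e]
  have : 0 ≤ (m0 / 2) ^ 2 * (s / (1 - s * Rn T)) := by positivity
  linarith

/-- the constant of K4 -/
def K4c (c : ℝ) : Prop :=
  ∀ M n T : ℕ, ∀ [NeZero M], 1 ≤ n → 2 * (n + T) < M →
    c * (n / (n + T)) ≤
      ∑ x, (step (st M) (Pool.Agent.H95.QC.hp M))^[T] (fun y => Pool.Agent.H95.QC.hp M y * q M n y) x ∧
    c * (n / (n + T)) ≤
      ∑ x, (step (st M) (Pool.Agent.H95.QC.hm M))^[T] (fun y => Pool.Agent.H95.QC.hm M y * q M n y) x

theorem x_core {c : ℝ} (hc : 0 < c) (hK4 : K4c c) (r : ℕ) {p : ℝ} (hpc : p ≤ c / (1 + r) / 2)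
    (M n T : ℕ) [NeZero M] (ν : Measure ℝ≥0) (s : ℝ) (h : Wt ν s) (hn : 1 ≤ n) (hT : T ≤ r * n)
    (hM : 2 * (n + T) < M) (hD : 0 < 1 - s * Rn T) :
    env (Tor M) ν {w | Z (st M) 1 T w (q M n) < p} ≤
      ENNReal.ofReal (((4 * (r : ℝ) / (3 * (c / (1 + r)) ^ 2) + 1) *
        (s / (1 - s * Rn T))) ^ 2) := by
  set m0 : ℝ := c / (1 + r) with hm0
  have hr0 : (0 : ℝ) ≤ r := Nat.cast_nonneg r
  have hm0p : 0 < m0 := by positivity
  have hprob := h.prob
  obtain ⟨k1, k2⟩ := hK4 M n T hn hM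
  have hn0 : (0 : ℝ) < n := by exact_mod_cast hn
  have hmn : m0 ≤ c * ((n : ℝ) / (n + T)) := by
    rw [hm0, div_eq_mul_one_div]
    refine mul_le_mul_of_nonneg_left ?_ hc.le
    rw [div_le_div_iff₀ (by positivity) (by positivity)]
    have : (T : ℝ) ≤ r * n := by exact_mod_cast hT
    linarith
  have t1 := tail_one h hn hT hM hD (fun x => (hp_bounds x).1) (fun x => (hp_bounds x).2) hm0p
    (p := p) hpc (hmn.trans k1)
  have t2 := tail_one h hn hT hM hD (fun x => (hm_bounds x).1) (fun x => (hm_bounds x).2) hm0p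
    (p := p) hpc (hmn.trans k2)
  set Zp : (ℕ → Tor M → ℝ≥0) → ℝ := fun w => Z (st M) (hp M) T w (fun y => hp M y * q M n y)
    with hZp
  set Zm : (ℕ → Tor M → ℝ≥0) → ℝ := fun w => Z (st M) (hm M) T w (fun y => hm M y * q M n y)
    with hZm
  have hind : IndepFun Zp Zm (env (Tor M) ν) := by
    refine indep_masks (st M) (fun x => ?_) T _ _
    unfold Pool.Agent.H95.QC.hp Pool.Agent.H95.QC.hm
    by_cases hx : 0 < x.1.valMinAbs
    · right; rw [if_neg (by omega)]
    · left; rw [if_neg hx]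
  have hsub : {w | Z (st M) 1 T w (q M n) < p} ⊆ Zp ⁻¹' (Set.Iio p) ∩ Zm ⁻¹' (Set.Iio p) := by
    intro w hw
    have hw' : Z (st M) 1 T w (q M n) < p := hw
    have hf : ∀ x, 0 ≤ Pool.Agent.H95.QC.hp M x * q M n x := fun x =>
      mul_nonneg (hp_bounds x).1 (q_nonneg M n x)
    have hg : ∀ x, 0 ≤ Pool.Agent.H95.QC.hm M x * q M n x := fun x =>
      mul_nonneg (hm_bounds x).1 (q_nonneg M n x)
    have hs : Zp w + Zm w ≤ Z (st M) 1 T w (q M n) := by
      simp only [hZp, hZm, Z]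
      rw [← Finset.sum_add_distrib]
      refine Finset.sum_le_sum fun x _ => ?_
      refine evo_super (st M) (fun x => (hp_bounds x).1) (fun x => (hp_bounds x).2)
        (fun x => (hm_bounds x).1) (fun x => (hm_bounds x).2) T w hf hg (fun y => ?_) x
      rw [← add_mul]
      exact mul_le_of_le_one_left (q_nonneg M n y) (hp_hm_le y)
    have z1 : 0 ≤ Zp w := Z_nonneg (st M) _ (fun x => (hp_bounds x).1) T w hf
    have z2 : 0 ≤ Zm w := Z_nonneg (st M) _ (fun x => (hm_bounds x).1) T w hg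
    exact ⟨show Zp w < p by linarith, show Zm w < p by linarith⟩
  refine (measure_mono hsub).trans ?_
  rw [hind.measure_inter_preimage_eq_mul _ _ measurableSet_Iio measurableSet_Iio]
  have hC : 0 ≤ (4 * (r : ℝ) / (3 * m0 ^ 2) + 1) * (s / (1 - s * Rn T)) := by
    have := div_nonneg h.nonneg hD.le
    positivity
  rw [_root_.sq ((4 * (r : ℝ) / (3 * m0 ^ 2) + 1) * (s / (1 - s * Rn T))), ENNReal.ofReal_mul hC]
  exact mul_le_mul' t1 t2

theorem k4c_holds : ∃ c, 0 < c ∧ K4c c := by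
  obtain ⟨c, hc, h⟩ := Pool.Agent.H94.QC.targetK4
  exact ⟨c, hc, fun M n T _ h1 h2 => h M n T h1 h2⟩

theorem targetX : TargetX := by
  obtain ⟨c, hc, hK4⟩ := k4c_holds
  intro r
  have hr0 : (0 : ℝ) ≤ r := Nat.cast_nonneg r
  refine ⟨min (c / (1 + r) / 2) (1 / 2), 4 * (r : ℝ) / (3 * (c / (1 + r)) ^ 2) + 1, by positivity,
    (min_le_right _ _).trans_lt (by norm_num), by positivity, ?_⟩
  intro M n T _ ν s h hn hT hM hD
  exact x_core hc hK4 r (min_le_left _ _) M n T ν s h hn hT hM hD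

/-- explicit dependence of the threshold on the ratio of the times -/
theorem targetX_explicit : ∃ c0 : ℝ, 0 < c0 ∧ c0 < 1 ∧ ∀ r : ℕ, 1 ≤ r → ∃ C : ℝ, 0 < C ∧
    ∀ (M n T : ℕ) [NeZero M] (ν : Measure ℝ≥0) (s : ℝ),
    Wt ν s → 1 ≤ n → T ≤ r * n → 2 * (n + T) < M → 0 < 1 - s * Rn T →
    env (Tor M) ν {w | Z (st M) 1 T w (q M n) < c0 / r} ≤
      ENNReal.ofReal ((C * (s / (1 - s * Rn T))) ^ 2) := by
  obtain ⟨c, hc, hK4⟩ := k4c_holds
  refine ⟨min (c / 4) (1 / 2), by positivity, (min_le_right _ _).trans_lt (by norm_num),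
    fun r hr => ?_⟩
  have hr0 : (1 : ℝ) ≤ r := by exact_mod_cast hr
  refine ⟨4 * (r : ℝ) / (3 * (c / (1 + r)) ^ 2) + 1, by positivity, ?_⟩
  intro M n T _ ν s h hn hT hM hD
  refine x_core hc hK4 r ?_ M n T ν s h hn hT hM hD
  calc min (c / 4) (1 / 2) / (r : ℝ) ≤ c / 4 / r := by gcongr; exact min_le_left _ _
    _ ≤ c / (1 + r) / 2 := by
      rw [div_div, div_div, div_le_div_iff₀ (by positivity) (by positivity)]
      nlinarith

/-- lower tails with an explicit level -/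
theorem lowTail : ∃ c0 : ℝ, 0 < c0 ∧ c0 < 1 ∧ ∀ Λ : ℕ, 1 ≤ Λ → LowTail Λ (c0 / (4 * Λ)) := by
  obtain ⟨c0, h0, h1, h⟩ := targetX_explicit
  refine ⟨c0, h0, h1, fun Λ hΛ => ?_⟩
  obtain ⟨C, hC, hX⟩ := h (2 * Λ) (by omega)
  refine ⟨C, hC, ?_⟩
  intro M n T _ ν s hw hn hT hM hD
  have e : 2 * (c0 / (4 * (Λ : ℝ))) = c0 / ((2 * Λ : ℕ) : ℝ) := by
    have : (0 : ℝ) < Λ := by exact_mod_cast hΛ
    push_cast
    field_simp
    ring
  rw [e]
  exact hX M n T ν s hw hn hT hM hD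

/-- a choice of the parameters of the grid -/
theorem exists_params : ∃ (Λ : ℕ) (θ : ℝ), 2 ≤ Λ ∧ 0 < θ ∧ 2 * θ < 1 ∧ 8 ≤ θ * (Λ : ℝ) ^ 2 ∧
    LowTail Λ θ := by
  obtain ⟨c0, h0, h1, h⟩ := lowTail
  refine ⟨max 2 ⌈32 / c0⌉₊, c0 / (4 * ((max 2 ⌈32 / c0⌉₊ : ℕ) : ℝ)), le_max_left _ _, ?_, ?_, ?_,
    h _ (by have := le_max_left 2 ⌈32 / c0⌉₊; omega)⟩
  · have : (0 : ℝ) < ((max 2 ⌈32 / c0⌉₊ : ℕ) : ℝ) := by positivity
    positivity
  · have h2 : (2 : ℝ) ≤ ((max 2 ⌈32 / c0⌉₊ : ℕ) : ℝ) := by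
      exact_mod_cast le_max_left 2 ⌈32 / c0⌉₊
    have : c0 / (4 * ((max 2 ⌈32 / c0⌉₊ : ℕ) : ℝ)) ≤ 1 / (4 * 2) := by gcongr
    linarith
  · have h2 : 32 / c0 ≤ ((max 2 ⌈32 / c0⌉₊ : ℕ) : ℝ) :=
      (Nat.le_ceil _).trans (by exact_mod_cast le_max_right 2 ⌈32 / c0⌉₊)
    have h3 : (0 : ℝ) < ((max 2 ⌈32 / c0⌉₊ : ℕ) : ℝ) := by positivity
    have e : c0 / (4 * ((max 2 ⌈32 / c0⌉₊ : ℕ) : ℝ)) * ((max 2 ⌈32 / c0⌉₊ : ℕ) : ℝ) ^ 2 =
        c0 * ((max 2 ⌈32 / c0⌉₊ : ℕ) : ℝ) / 4 := by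
      field_simp
    rw [e]
    rw [div_le_iff₀ h0] at h2
    linarith

end Pool.Agent.H9.QC
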