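import Pool.Agent.H9.QC.D2
import Pool.Agent.H94.QC.K3

/-!
# The look-back estimate: module D4 of MP_f3a553_pr
-/

set_option autoImplicit false

open MeasureTheory ProbabilityTheory Filter Topology
open scoped ENNReal NNReal BigOperators

namespace Pool.Agent.H9.QC

open Pool.Agent.H95 Pool.Agent.H95.QC

/-- standing assumptions -/
structure Ctx (M : ℕ) [NeZero M] (Λ N K : ℕ) (n : ℕ → ℕ) (ν : Measure ℝ≥0) (s θ : ℝ) : Prop where
  hΛ : 2 ≤ Λ
  hθ : 0 < θ
  hG : Grid Λ N K n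
  hw : Wt ν s
  hs : 0 < s
  hb : 1 ≤ (1 - s * Rn N) / s
  hM : 8 * N < M

theorem Rn_sub_le {a b : ℕ} (ha : 1 ≤ a) (hab : a ≤ b) :
    Rn b - Rn a ≤ ((b : ℝ) - a) / (3 * a) := by
  have ha0 : (0 : ℝ) < a := by exact_mod_cast ha
  induction b, hab using Nat.le_induction with
  | base => simp
  | succ b hb ih =>
    rw [Rn_succ]
    have h1 := (targetK0'.2 (b + 1) (by omega)).2
    have h2 : (1 : ℝ) / (3 * ((b + 1 : ℕ) : ℝ)) ≤ 1 / (3 * a) := by
      refine one_div_le_one_div_of_le (by positivity) ?_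
      have : (a : ℝ) ≤ b := by exact_mod_cast hb
      push_cast
      linarith
    have h3 : (((b + 1 : ℕ) : ℝ) - a) / (3 * a) = ((b : ℝ) - a) / (3 * a) + 1 / (3 * a) := by
      push_cast
      field_simp
      ring
    rw [h3]
    linarith

theorem Rn_grid {Λ N K : ℕ} {n : ℕ → ℕ} (hΛ : 2 ≤ Λ) (h : Grid Λ N K n) {i j : ℕ} (hi : 1 ≤ i)
    (hij : i ≤ j) (hj : j ≤ K) : Rn (n j) ≤ Rn (n i) + Λ * ((j - i : ℕ) : ℝ) := by
  induction j, hij using Nat.le_induction with
  | base => simp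
  | succ j hij ih =>
    have ih' := ih (by omega)
    have h1 := (h.ratio j (by omega) (by omega)).2
    have hp := h.pos (by omega) (by omega : 1 ≤ j) (by omega)
    have hm := h.mono_succ (by omega) (by omega : j < K)
    have h2 := Rn_sub_le hp hm
    have hp' : (0 : ℝ) < n j := by exact_mod_cast hp
    have h3 : ((n (j + 1) : ℝ) - n j) / (3 * n j) ≤ Λ := by
      rw [div_le_iff₀ (by positivity)]
      have : (n (j + 1) : ℝ) ≤ 2 * Λ * n j := by exact_mod_cast h1
      have hΛ0 : (0 : ℝ) ≤ Λ * n j := by positivity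
      nlinarith
    have h4 : ((j + 1 - i : ℕ) : ℝ) = ((j - i : ℕ) : ℝ) + 1 := by
      have : j + 1 - i = (j - i) + 1 := by omega
      rw [this]; push_cast; ring
    rw [h4]
    have : (Λ : ℝ) * (((j - i : ℕ) : ℝ) + 1) = Λ * ((j - i : ℕ) : ℝ) + Λ := by ring
    rw [this]
    linarith

theorem Rn_long {Λ N K : ℕ} {n : ℕ → ℕ} (hΛ : 2 ≤ Λ) (h : Grid Λ N K n) {i j : ℕ}
    (hij : i < j) (hj : j ≤ K) :
    Rn (n j - n i) - Rn (n (i + 1) - n i) ≤ Λ * ((j - i : ℕ) : ℝ) := by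
  have h1 := Rn_grid hΛ h (i := i + 1) (by omega) hij hj
  have h2 : Rn (n j - n i) ≤ Rn (n j) := Rn_mono (Nat.sub_le _ _)
  obtain ⟨h3, h4⟩ := grid_len hΛ h (i := i) (by omega)
  have h5 := Rn_sub_le h3 (Nat.sub_le (n (i + 1)) (n i))
  have h6 : ((n (i + 1) : ℝ) - ((n (i + 1) - n i : ℕ) : ℝ)) / (3 * ((n (i + 1) - n i : ℕ) : ℝ)) ≤ 1 := by
    have hp : (0 : ℝ) < ((n (i + 1) - n i : ℕ) : ℝ) := by exact_mod_cast h3
    rw [div_le_one (by positivity)]
    have : (n (i + 1) : ℝ) ≤ 2 * ((n (i + 1) - n i : ℕ) : ℝ) := by exact_mod_cast h4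
    linarith
  have h7 : ((j - i : ℕ) : ℝ) = ((j - (i + 1) : ℕ) : ℝ) + 1 := by
    have : j - i = (j - (i + 1)) + 1 := by omega
    rw [this]; push_cast; ring
  have hΛ1 : (1 : ℝ) ≤ Λ := by exact_mod_cast (by omega : 1 ≤ Λ)
  rw [h7]
  have : (Λ : ℝ) * (((j - (i + 1) : ℕ) : ℝ) + 1) = Λ * ((j - (i + 1) : ℕ) : ℝ) + Λ := by ring
  rw [this]
  linarith

section

variable {M : ℕ} [NeZero M]

theorem En_long (hE4 : TargetE4) {μ : Tor M → ℝ} (hμ : ∀ x, 0 ≤ μ x) (hμ1 : ∑ x, μ x = 1) {T L : ℕ}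
    (hTL : T ≤ L) (hL : 2 * L < M) : En M L μ ≤ En M T μ + (Rn L - Rn T) := by
  induction L, hTL using Nat.le_induction with
  | base => simp
  | succ L h ih =>
    have ih' := ih (by omega)
    have e1 : En M (L + 1) μ = En M L μ + Pool.Agent.H95.QC.sq ((step (st M) 1)^[L + 1] μ) := by
      unfold En
      rw [Finset.sum_Icc_succ_top (by omega)]
    have h1 := hE4 M (L + 1) μ hL
    have h2 : ∑ x, |μ x| = 1 := by
      rw [← hμ1]
      exact Finset.sum_congr rfl fun x _ => abs_of_nonneg (hμ x)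
    rw [h2, one_pow, mul_one] at h1
    rw [e1, Rn_succ]
    linarith

variable {Λ N K : ℕ} {n : ℕ → ℕ} {ν : Measure ℝ≥0} {s θ : ℝ}

/-- energies over several blocks -/
theorem int_En_long (c : Ctx M Λ N K n ν s θ) (hE4 : TargetE4) {C₂ : ℝ} (hC₂0 : 0 ≤ C₂)
    (hC₂ : ∀ i < K, ∫⁻ w in {w | Good M n θ i w},
      ENNReal.ofReal (En M (n (i + 1) - n i) (mu M (n i) w)) ∂(env (Tor M) ν) ≤ ENNReal.ofReal C₂)
    {i j : ℕ} (hij : i < j) (hj : j ≤ K) :
    ∫⁻ w in {w | Good M n θ i w}, ENNReal.ofReal (En M (n j - n i) (mu M (n i) w))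
      ∂(env (Tor M) ν) ≤ ENNReal.ofReal (C₂ + Λ * ((j - i : ℕ) : ℝ)) := by
  have hp := c.hw.prob
  have hjN : n j ≤ N := c.hG.le_N (by have := c.hΛ; omega) hj
  have hmono : n (i + 1) ≤ n j := c.hG.mono (by have := c.hΛ; omega) hij hj
  have hM := c.hM
  have key : ∀ w ∈ {w | Good M n θ i w}, ENNReal.ofReal (En M (n j - n i) (mu M (n i) w)) ≤
      ENNReal.ofReal (En M (n (i + 1) - n i) (mu M (n i) w)) +
        ENNReal.ofReal (Λ * ((j - i : ℕ) : ℝ)) := by
    intro w hw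
    have hpos : 0 < WW M (n i) w := Good.pos M c.hG.zero c.hθ hw
    rw [← ENNReal.ofReal_add (En_nonneg M _ _) (by positivity)]
    refine ENNReal.ofReal_le_ofReal ?_
    have h1 := En_long hE4 (mu_nonneg M (n i) w) (sum_mu M (n i) w hpos.ne')
      (T := n (i + 1) - n i) (L := n j - n i) (by omega) (by omega)
    have h2 := Rn_long c.hΛ c.hG hij hj
    linarith
  calc ∫⁻ w in {w | Good M n θ i w}, ENNReal.ofReal (En M (n j - n i) (mu M (n i) w))
      ∂(env (Tor M) ν)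
      ≤ ∫⁻ w in {w | Good M n θ i w}, (ENNReal.ofReal (En M (n (i + 1) - n i) (mu M (n i) w)) +
        ENNReal.ofReal (Λ * ((j - i : ℕ) : ℝ))) ∂(env (Tor M) ν) :=
        setLIntegral_mono' (measurableSet_Good M n θ i) key
    _ = (∫⁻ w in {w | Good M n θ i w}, ENNReal.ofReal (En M (n (i + 1) - n i) (mu M (n i) w))
          ∂(env (Tor M) ν)) + ENNReal.ofReal (Λ * ((j - i : ℕ) : ℝ)) *
          (env (Tor M) ν) {w | Good M n θ i w} := by
        rw [lintegral_add_right _ measurable_const, setLIntegral_const]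
    _ ≤ ENNReal.ofReal C₂ + ENNReal.ofReal (Λ * ((j - i : ℕ) : ℝ)) * 1 := by
        gcongr
        · exact hC₂ i (by omega)
        · exact prob_le_one
    _ = _ := by rw [mul_one, ← ENNReal.ofReal_add hC₂0 (by positivity)]

/-- fluctuation of the mass over several blocks -/
theorem int_Z_long (c : Ctx M Λ N K n ν s θ) (hE4 : TargetE4) (hP2 : TargetP2) {C₂ : ℝ}
    (hC₂0 : 0 ≤ C₂)
    (hC₂ : ∀ i < K, ∫⁻ w in {w | Good M n θ i w},
      ENNReal.ofReal (En M (n (i + 1) - n i) (mu M (n i) w)) ∂(env (Tor M) ν) ≤ ENNReal.ofReal C₂)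
    {i j : ℕ} (hij : i < j) (hj : j ≤ K) :
    ∫⁻ w in {w | Good M n θ i w}, ENNReal.ofReal
      ((Z (st M) 1 (n j - n i) (shift (n i) w) (mu M (n i) w) - 1) ^ 2) ∂(env (Tor M) ν) ≤
      ENNReal.ofReal ((s / (1 - s * Rn (n j - n i))) * (C₂ + Λ * ((j - i : ℕ) : ℝ))) := by
  have hp := c.hw.prob
  have hΛ := c.hΛ
  have hM := c.hM
  have hjN : n j ≤ N := c.hG.le_N (by omega) hj
  obtain ⟨-, -, hD, -⟩ := D_bounds c.hs le_rfl c.hb (T := n j - n i) (by omega)
  have hd0 : 0 ≤ s / (1 - s * Rn (n j - n i)) := div_nonneg c.hs.le hD.le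
  have h1 : ∫⁻ w in {w | Good M n θ i w}, ENNReal.ofReal
      ((Z (st M) 1 (n j - n i) (shift (n i) w) (mu M (n i) w) - 1) ^ 2) ∂(env (Tor M) ν) ≤
      ∫⁻ w in {w | Good M n θ i w}, ENNReal.ofReal ((s / (1 - s * Rn (n j - n i))) *
        En M (n j - n i) (mu M (n i) w)) ∂(env (Tor M) ν) := by
    refine setLIntegral_split_le (t := n i) (measurableSet_Good M n θ i)
      (Good_depLt M (fun k hk => c.hG.mono (by omega) hk (by omega)) θ)
      (H := fun w w' => ENNReal.ofReal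
        ((Z (st M) 1 (n j - n i) w' (mu M (n i) w) - 1) ^ 2)) ?_ ?_ ?_
    · refine ENNReal.measurable_ofReal.comp ?_
      have h : Measurable (fun a : (ℕ → Tor M → ℝ≥0) × (ℕ → Tor M → ℝ≥0) =>
          ((a.2, mu M (n i) a.1) : (ℕ → Tor M → ℝ≥0) × (Tor M → ℝ))) :=
        measurable_snd.prodMk ((measurable_mu M (n i)).comp measurable_fst)
      exact (((measurable_Z (st M) 1 (n j - n i)).comp h).sub_const 1).pow_const 2
    · intro w' x x' hx
      simp only [mu_depLt M (n i) x x' hx]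
    · intro w hw
      have hpos : 0 < WW M (n i) w := Good.pos M c.hG.zero c.hθ hw
      have := hP2 M (n j - n i) ν s (mu M (n i) w) c.hw hD (by omega)
      rw [sum_mu M (n i) w hpos.ne'] at this
      exact this
  refine h1.trans ?_
  simp_rw [ENNReal.ofReal_mul hd0]
  rw [lintegral_const_mul' _ _ ENNReal.ofReal_ne_top, ]
  gcongr
  exact int_En_long c hE4 hC₂0 hC₂ hij hj

/-- P1, part (a) -/
def P1a (r : ℕ) (C : ℝ) : Prop :=
  ∀ (M T T' : ℕ) [NeZero M] (ν : Measure ℝ≥0) (s : ℝ) (μ : Tor M → ℝ),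
    Wt ν s → 0 < s → s ≤ 1 - s * Rn T → 1 ≤ T → T' ≤ r * T → 2 * (T + T') < M →
    (∀ x, 0 ≤ μ x) → ∑ x, μ x = 1 →
    ∫⁻ w, ENNReal.ofReal (En M T' (evo (st M) 1 T w μ - (step (st M) 1)^[T] μ)) ∂(env (Tor M) ν)
      ≤ ENNReal.ofReal (C * (s / (1 - s * Rn T)) * (1 + En M T μ))

theorem int_I (c : Ctx M Λ N K n ν s θ) (hE4 : TargetE4) {C₁ : ℝ} (hC₁0 : 0 < C₁)
    (hP1 : P1a (4 * Λ) C₁) {C₂ : ℝ} (hC₂0 : 0 ≤ C₂)
    (hC₂ : ∀ i < K, ∫⁻ w in {w | Good M n θ i w},
      ENNReal.ofReal (En M (n (i + 1) - n i) (mu M (n i) w)) ∂(env (Tor M) ν) ≤ ENNReal.ofReal C₂)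
    {i j : ℕ} (hij : i < j) (hj : j < K) :
    ∫⁻ w in {w | Good M n θ i w}, ENNReal.ofReal
      (En M (n (j + 1) - n j) (evo (st M) 1 (n j - n i) (shift (n i) w) (mu M (n i) w) -
        (step (st M) 1)^[n j - n i] (mu M (n i) w))) ∂(env (Tor M) ν) ≤
      ENNReal.ofReal (C₁ * (s / (1 - s * Rn (n j - n i))) *
        (1 + (C₂ + Λ * ((j - i : ℕ) : ℝ)))) := by
  have hp := c.hw.prob
  have hΛ := c.hΛ
  have hM := c.hM
  have hjN : n (j + 1) ≤ N := c.hG.le_N (by omega) hj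
  have hjm : n j ≤ n (j + 1) := c.hG.mono_succ (by omega) hj
  obtain ⟨hD1, -, hD, -⟩ := D_bounds c.hs le_rfl c.hb (T := n j - n i) (by omega)
  have hd0 : 0 ≤ s / (1 - s * Rn (n j - n i)) := div_nonneg c.hs.le hD.le
  -- lengths
  obtain ⟨j', rfl⟩ : ∃ j', j = j' + 1 := ⟨j - 1, by omega⟩
  have hlen := grid_len hΛ c.hG (i := j') (by omega)
  have hrat := grid_ratio hΛ c.hG (i := j') hj
  have hij' : n i ≤ n j' := c.hG.mono (by omega) (by omega) (by omega)
  have hL1 : n (j' + 1) - n j' ≤ n (j' + 1) - n i := by omega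
  have hT' : n (j' + 1 + 1) - n (j' + 1) ≤ 4 * Λ * (n (j' + 1) - n i) :=
    hrat.trans (Nat.mul_le_mul_left _ hL1)
  set L := n (j' + 1) - n i with hL
  set T' := n (j' + 1 + 1) - n (j' + 1) with hT'd
  have h1 : ∫⁻ w in {w | Good M n θ i w}, ENNReal.ofReal
      (En M T' (evo (st M) 1 L (shift (n i) w) (mu M (n i) w) -
        (step (st M) 1)^[L] (mu M (n i) w))) ∂(env (Tor M) ν) ≤
      ∫⁻ w in {w | Good M n θ i w}, ENNReal.ofReal (C₁ * (s / (1 - s * Rn L)) *
        (1 + 1 * En M L (mu M (n i) w))) ∂(env (Tor M) ν) := by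
    refine setLIntegral_split_le (t := n i) (measurableSet_Good M n θ i)
      (Good_depLt M (fun k hk => c.hG.mono (by omega) hk (by omega)) θ)
      (H := fun w w' => ENNReal.ofReal
        (En M T' (evo (st M) 1 L w' (mu M (n i) w) - (step (st M) 1)^[L] (mu M (n i) w)))) ?_ ?_ ?_
    · refine ENNReal.measurable_ofReal.comp ?_
      refine (measurable_En M T').comp ((measurable_evo_mu M L (n i)).sub ?_)
      exact ((measurable_step (st M) 1).iterate L).comp
        ((measurable_mu M (n i)).comp measurable_fst)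
    · intro w' x x' hx
      simp only [mu_depLt M (n i) x x' hx]
    · intro w hw
      have hpos : 0 < WW M (n i) w := Good.pos M c.hG.zero c.hθ hw
      rw [one_mul]
      exact hP1 M L T' ν s (mu M (n i) w) c.hw c.hs hD1 (by omega) hT' (by omega)
        (mu_nonneg M (n i) w) (sum_mu M (n i) w hpos.ne')
  refine h1.trans ?_
  have hc : 0 ≤ C₁ * (s / (1 - s * Rn L)) := by positivity
  rw [setLIntegral_affine (env (Tor M) ν) hc zero_le_one (fun w => En_nonneg M _ _),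
    ENNReal.ofReal_one, one_mul, ENNReal.ofReal_mul hc, ENNReal.ofReal_add zero_le_one
    (by positivity), ENNReal.ofReal_one]
  gcongr
  · exact prob_le_one
  · exact int_En_long c hE4 hC₂0 hC₂ hij (by omega)

/-! ### parity -/

theorem val_add_one {M : ℕ} [NeZero M] (hM : Even M) (h2 : 2 ≤ M) (a : ZMod M) :
    (a + 1).val % 2 = (a.val + 1) % 2 := by
  rw [ZMod.val_add, ZMod.val_one_eq_one_mod, Nat.mod_eq_of_lt (by omega : 1 < M),
    Nat.mod_mod_of_dvd _ (even_iff_two_dvd.1 hM)]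

theorem par_of_add {M : ℕ} [NeZero M] (hM : Even M) (h2 : 2 ≤ M) {p : ℕ} {a b : ZMod M}
    (h : b = a + 1 ∨ b = a - 1) (ha : a.val % 2 = p % 2) : b.val % 2 = (p + 1) % 2 := by
  rcases h with h | h
  · rw [h, val_add_one hM h2]
    omega
  · have h3 := val_add_one hM h2 b
    have h4 : b + 1 = a := by rw [h]; ring
    rw [h4] at h3
    omega

theorem par_step (hM : Even M) (h2 : 2 ≤ M) {p : ℕ} {f : Tor M → ℝ} (hf : Par p f) :
    Par (p + 1) (step (st M) 1 f) := by
  intro x hx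
  rw [step_one] at hx
  have h1 : ∃ i, f (x - st M i) ≠ 0 := by
    by_contra h
    push Not at h
    apply hx
    rw [Finset.sum_eq_zero fun i _ => h i, zero_div]
  obtain ⟨i, hi⟩ := h1
  obtain ⟨h3, h4⟩ := hf _ hi
  have key : (x.1 = (x - st M i).1 + 1 ∨ x.1 = (x - st M i).1 - 1) ∧
      (x.2 = (x - st M i).2 + 1 ∨ x.2 = (x - st M i).2 - 1) := by
    fin_cases i <;> simp [st]
  exact ⟨par_of_add hM h2 key.1 h3, par_of_add hM h2 key.2 h4⟩

theorem par_evo (hM : Even M) (h2 : 2 ≤ M) (T : ℕ) (w : ℕ → Tor M → ℝ≥0) {p : ℕ} {f : Tor M → ℝ}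
    (hf : Par p f) : Par (p + T) (evo (st M) 1 T w f) := by
  induction T generalizing w p f with
  | zero => exact hf
  | succ T ih =>
    have h3 : Par (p + 1) (fun x => (w 0 x : ℝ) * step (st M) 1 f x) := by
      intro x hx
      exact par_step hM h2 hf x (right_ne_zero_of_mul hx)
    have h4 := ih (shift 1 w) h3
    have e : p + 1 + T = p + (T + 1) := by ring
    rw [e] at h4
    exact h4

theorem par_dl : Par 0 (dl 0 : Tor M → ℝ) := by
  intro x hx
  unfold dl at hx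
  rw [Pi.single_apply] at hx
  have : x = 0 := by
    by_contra h
    exact hx (if_neg h)
  rw [this]
  simp

theorem par_q (hM : Even M) (h2 : 2 ≤ M) (t : ℕ) : Par t (q M t) := by
  induction t with
  | zero => exact par_dl
  | succ t ih =>
    rw [q_succ]
    exact par_step hM h2 ih

theorem par_mu (hM : Even M) (h2 : 2 ≤ M) (t : ℕ) (w : ℕ → Tor M → ℝ≥0) : Par t (mu M t w) := by
  intro x hx
  have h := par_evo hM h2 t w (par_dl (M := M))
  rw [zero_add] at h
  exact h x (right_ne_zero_of_mul hx)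

theorem par_sub {p : ℕ} {f g : Tor M → ℝ} (hf : Par p f) (hg : Par p g) : Par p (f - g) := by
  intro x hx
  by_cases h : f x = 0
  · refine hg x fun h' => hx ?_
    simp [h, h']
  · exact hf x h

/-! ### second moments of the endpoint -/

theorem nrm2_le {t : ℝ} (ht : 0 < t) (x : Tor M) : nrm2 x ≤ nrm4 x / t + t / 2 := by
  unfold nrm2 nrm4
  set a : ℝ := (x.1.valMinAbs : ℝ)
  set b : ℝ := (x.2.valMinAbs : ℝ)
  rw [div_add_div _ _ ht.ne' two_ne_zero, le_div_iff₀ (by positivity)]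
  nlinarith [sq_nonneg (a ^ 2 + b ^ 2 - t), sq_nonneg (a ^ 2 - b ^ 2)]

theorem nrm4_nonneg (x : Tor M) : 0 ≤ nrm4 x := by unfold nrm4; positivity

theorem nrm2_nonneg (x : Tor M) : 0 ≤ nrm2 x := by unfold nrm2; positivity

theorem q_nrm4 (t : ℕ) : ∑ x, q M t x * nrm4 x ≤ 24 * (t : ℝ) ^ 2 := by
  have h := Pool.Agent.H94.QC.targetK3 M t (dl 0) (dl_nonneg 0)
  have e1 : ∑ x, (dl 0 : Tor M → ℝ) x * nrm4 x = 0 := by
    unfold dl
    simp [Pi.single_apply, nrm4]
  rw [e1, sum_dl] at h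
  unfold q
  linarith

/-- the energy of the propagated difference, pointwise -/
theorem En_II (hev : Even M) {t L T' : ℕ} (ht : 1 ≤ t) (hL : 1 ≤ L) (hM : 4 * (L + T') < M)
    {μ : Tor M → ℝ} (hμ : ∀ x, 0 ≤ μ x) (hμ1 : ∑ x, μ x = 1) (hpar : Par t μ) :
    En M T' ((step (st M) 1)^[L] (μ - q M t)) ≤
      T' * (2 / (3 * (L : ℝ) ^ 2)) * ((∑ x, μ x * nrm4 x) / t + 25 * t) := by
  have ht0 : (0 : ℝ) < t := by exact_mod_cast ht
  have hL0 : (0 : ℝ) < L := by exact_mod_cast hL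
  set F : Tor M → ℝ := μ - q M t with hF
  have hFpar : Par t F := par_sub hpar (par_q hev (by omega) t)
  have hF0 : ∑ x, F x = 0 := by
    simp only [hF, Pi.sub_apply, Finset.sum_sub_distrib]
    rw [hμ1, sum_q, sub_self]
  have hFle : ∀ x, |F x| ≤ μ x + q M t x := by
    intro x
    simp only [hF, Pi.sub_apply]
    refine (abs_sub _ _).trans ?_
    rw [abs_of_nonneg (hμ x), abs_of_nonneg (Pool.Agent.H95.QC.q_nonneg M t x)]
  have h1 : ∑ x, |F x| ≤ 2 := by
    calc ∑ x, |F x| ≤ ∑ x, (μ x + q M t x) := Finset.sum_le_sum fun x _ => hFle x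
      _ = 2 := by rw [Finset.sum_add_distrib, hμ1, sum_q]; norm_num
  have h2 : ∑ x, |F x| * nrm2 x ≤ (∑ x, μ x * nrm4 x) / t + 25 * t := by
    calc ∑ x, |F x| * nrm2 x ≤ ∑ x, (μ x + q M t x) * (nrm4 x / t + t / 2) := by
          refine Finset.sum_le_sum fun x _ => ?_
          exact mul_le_mul (hFle x) (nrm2_le ht0 x) (nrm2_nonneg x)
            (add_nonneg (hμ x) (Pool.Agent.H95.QC.q_nonneg M t x))
      _ = (∑ x, μ x * nrm4 x) / t + (∑ x, μ x) * (t / 2) + (∑ x, q M t x * nrm4 x) / t +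
          (∑ x, q M t x) * (t / 2) := by
          rw [Finset.sum_div, Finset.sum_mul, Finset.sum_div, Finset.sum_mul,
            ← Finset.sum_add_distrib, ← Finset.sum_add_distrib, ← Finset.sum_add_distrib]
          refine Finset.sum_congr rfl fun x _ => ?_
          ring
      _ ≤ (∑ x, μ x * nrm4 x) / t + 1 * (t / 2) + (24 * (t : ℝ) ^ 2) / t + 1 * (t / 2) := by
          rw [hμ1, sum_q]
          gcongr
          exact q_nrm4 t
      _ = _ := by field_simp; ring
  have hS0 : 0 ≤ ∑ x, |F x| * nrm2 x :=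
    Finset.sum_nonneg fun x _ => mul_nonneg (abs_nonneg _) (nrm2_nonneg x)
  have h3 : ∀ k ∈ Finset.Icc 1 T', Pool.Agent.H95.QC.sq
      ((step (st M) 1)^[k] ((step (st M) 1)^[L] F)) ≤
      2 / (3 * (L : ℝ) ^ 2) * ((∑ x, μ x * nrm4 x) / t + 25 * t) := by
    intro k hk
    rw [Finset.mem_Icc] at hk
    rw [← Function.iterate_add_apply]
    have h4 := targetK2 M (k + L) t hev (by omega) (by omega) F hFpar hF0
    refine h4.trans ?_
    have h5 : (1 : ℝ) / (3 * ((k + L : ℕ) : ℝ) ^ 2) ≤ 1 / (3 * (L : ℝ) ^ 2) := by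
      refine one_div_le_one_div_of_le (by positivity) ?_
      have : (L : ℝ) ≤ ((k + L : ℕ) : ℝ) := by push_cast; linarith [Nat.cast_nonneg (α := ℝ) k]
      gcongr
    calc 1 / (3 * ((k + L : ℕ) : ℝ) ^ 2) * (∑ x, |F x|) * ∑ x, |F x| * nrm2 x
        ≤ 1 / (3 * (L : ℝ) ^ 2) * 2 * ((∑ x, μ x * nrm4 x) / t + 25 * t) := by
          have h6 : 0 ≤ ∑ x, |F x| := Finset.sum_nonneg fun x _ => abs_nonneg _
          gcongr
      _ = _ := by ring
  calc En M T' ((step (st M) 1)^[L] F)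
      ≤ ∑ _k ∈ Finset.Icc 1 T', 2 / (3 * (L : ℝ) ^ 2) * ((∑ x, μ x * nrm4 x) / t + 25 * t) :=
        Finset.sum_le_sum h3
    _ = _ := by
      rw [Finset.sum_const, Nat.card_Icc, Nat.add_sub_cancel, nsmul_eq_mul]
      ring

theorem grid_pow {Λ N K : ℕ} {n : ℕ → ℕ} (hΛ : 2 ≤ Λ) (h : Grid Λ N K n) {i j : ℕ} (hi : 1 ≤ i)
    (hij : i ≤ j) (hj : j ≤ K) : (j - i + 1) * n i ≤ n j := by
  induction j, hij using Nat.le_induction with
  | base => simp
  | succ j hij ih =>
    have ih' := ih (by omega)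
    have h1 := (h.ratio j (by omega) (by omega)).1
    have h2 : 2 * n j ≤ Λ * n j := Nat.mul_le_mul_right _ hΛ
    have h3 : (j + 1 - i + 1) = (j - i + 1) + 1 := by omega
    rw [h3, add_mul, one_mul]
    have h4 : n i ≤ (j - i + 1) * n i := Nat.le_mul_of_pos_left _ (by omega)
    omega

theorem int_II (c : Ctx M Λ N K n ν s θ) (hev : Even M) {C₃ : ℝ} (hC₃0 : 0 < C₃)
    (hC₃ : ∀ i, 1 ≤ i → i < K → ∫⁻ w in {w | Good M n θ i w},
      ENNReal.ofReal (∑ x, mu M (n i) w x * nrm4 x) ∂(env (Tor M) ν) ≤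
        ENNReal.ofReal (C₃ * (n i : ℝ) ^ 2))
    {i j : ℕ} (hi : 1 ≤ i) (hij : i < j) (hj : j < K) :
    ∫⁻ w in {w | Good M n θ i w}, ENNReal.ofReal
      (En M (n (j + 1) - n j) ((step (st M) 1)^[n j - n i] (mu M (n i) w - q M (n i))))
        ∂(env (Tor M) ν) ≤
      ENNReal.ofReal (8 * Λ / 3 * (C₃ + 25) / ((j - i : ℕ) : ℝ)) := by
  have hp := c.hw.prob
  have hΛ := c.hΛ
  have hM := c.hM
  have hjN : n (j + 1) ≤ N := c.hG.le_N (by omega) hj
  have hjm : n j ≤ n (j + 1) := c.hG.mono_succ (by omega) hj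
  have hpow := grid_pow hΛ c.hG hi hij.le hj.le
  have hpos := c.hG.pos (by omega) hi (by omega)
  obtain ⟨j', rfl⟩ : ∃ j', j = j' + 1 := ⟨j - 1, by omega⟩
  have hlen := grid_len hΛ c.hG (i := j') (by omega)
  have hrat := grid_ratio hΛ c.hG (i := j') hj
  have hij' : n i ≤ n j' := c.hG.mono (by omega) (by omega) (by omega)
  have hL1 : n (j' + 1) - n j' ≤ n (j' + 1) - n i := by omega
  have hT' : n (j' + 1 + 1) - n (j' + 1) ≤ 4 * Λ * (n (j' + 1) - n i) :=
    hrat.trans (Nat.mul_le_mul_left _ hL1)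
  have hLr : (j' + 1 - i) * n i ≤ n (j' + 1) - n i := by
    have : (j' + 1 - i + 1) * n i = (j' + 1 - i) * n i + n i := by ring
    omega
  set L := n (j' + 1) - n i with hL
  set T' := n (j' + 1 + 1) - n (j' + 1) with hT'd
  set r := j' + 1 - i with hr
  have hL0 : (0 : ℝ) < L := by exact_mod_cast (by omega : 0 < L)
  have ht0 : (0 : ℝ) < n i := by exact_mod_cast hpos
  have hr0 : (0 : ℝ) < r := by exact_mod_cast (by omega : 0 < r)
  have hTL : (T' : ℝ) ≤ 4 * Λ * L := by exact_mod_cast hT'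
  have hLr' : (r : ℝ) * n i ≤ L := by exact_mod_cast hLr
  have hK0 : (0 : ℝ) ≤ 8 * Λ / (3 * L) := by positivity
  have key : ∀ w ∈ {w | Good M n θ i w}, ENNReal.ofReal
      (En M T' ((step (st M) 1)^[L] (mu M (n i) w - q M (n i)))) ≤
      ENNReal.ofReal (8 * Λ / (3 * L)) * (ENNReal.ofReal ((n i : ℝ)⁻¹) *
        ENNReal.ofReal (∑ x, mu M (n i) w x * nrm4 x) + ENNReal.ofReal (25 * n i)) := by
    intro w hw
    have hpos' : 0 < WW M (n i) w := Good.pos M c.hG.zero c.hθ hw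
    have hS : 0 ≤ ∑ x, mu M (n i) w x * nrm4 x :=
      Finset.sum_nonneg fun x _ => mul_nonneg (mu_nonneg M (n i) w x) (nrm4_nonneg x)
    rw [← ENNReal.ofReal_mul (by positivity), ← ENNReal.ofReal_add (by positivity) (by positivity),
      ← ENNReal.ofReal_mul hK0]
    refine ENNReal.ofReal_le_ofReal ?_
    have h1 := En_II hev hpos (L := L) (T' := T') (by omega) (by omega)
      (mu_nonneg M (n i) w) (sum_mu M (n i) w hpos'.ne') (par_mu hev (by omega) (n i) w)
    refine h1.trans ?_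
    have h2 : (T' : ℝ) * (2 / (3 * (L : ℝ) ^ 2)) ≤ 8 * Λ / (3 * L) := by
      calc (T' : ℝ) * (2 / (3 * (L : ℝ) ^ 2)) ≤ 4 * Λ * L * (2 / (3 * (L : ℝ) ^ 2)) := by gcongr
        _ = _ := by field_simp; ring
    have h3 : (∑ x, mu M (n i) w x * nrm4 x) / (n i : ℝ) =
        (n i : ℝ)⁻¹ * ∑ x, mu M (n i) w x * nrm4 x := by ring
    rw [h3]
    gcongr
  calc ∫⁻ w in {w | Good M n θ i w}, ENNReal.ofReal (En M T'
        ((step (st M) 1)^[L] (mu M (n i) w - q M (n i)))) ∂(env (Tor M) ν)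
      ≤ ∫⁻ w in {w | Good M n θ i w}, (ENNReal.ofReal (8 * Λ / (3 * L)) *
        (ENNReal.ofReal ((n i : ℝ)⁻¹) *
        ENNReal.ofReal (∑ x, mu M (n i) w x * nrm4 x) + ENNReal.ofReal (25 * n i)))
          ∂(env (Tor M) ν) := setLIntegral_mono' (measurableSet_Good M n θ i) key
    _ = ENNReal.ofReal (8 * Λ / (3 * L)) * (ENNReal.ofReal ((n i : ℝ)⁻¹) *
        (∫⁻ w in {w | Good M n θ i w}, ENNReal.ofReal (∑ x, mu M (n i) w x * nrm4 x)
          ∂(env (Tor M) ν)) + ENNReal.ofReal (25 * n i) *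
          (env (Tor M) ν) {w | Good M n θ i w}) := by
        rw [lintegral_const_mul' _ _ ENNReal.ofReal_ne_top, lintegral_add_right _ measurable_const,
          lintegral_const_mul' _ _ ENNReal.ofReal_ne_top, setLIntegral_const]
    _ ≤ ENNReal.ofReal (8 * Λ / (3 * L)) * (ENNReal.ofReal ((n i : ℝ)⁻¹) *
        ENNReal.ofReal (C₃ * (n i : ℝ) ^ 2) + ENNReal.ofReal (25 * n i) * 1) := by
        gcongr
        · exact hC₃ i hi (by omega)
        · exact prob_le_one
    _ = ENNReal.ofReal (8 * Λ / (3 * L) * ((n i : ℝ)⁻¹ * (C₃ * (n i : ℝ) ^ 2) + 25 * n i)) := by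
        rw [mul_one, ← ENNReal.ofReal_mul (by positivity),
          ← ENNReal.ofReal_add (by positivity) (by positivity), ← ENNReal.ofReal_mul hK0]
    _ ≤ _ := by
        refine ENNReal.ofReal_le_ofReal ?_
        have e : 8 * Λ / (3 * L) * ((n i : ℝ)⁻¹ * (C₃ * (n i : ℝ) ^ 2) + 25 * n i) =
            8 * Λ / 3 * (C₃ + 25) * (n i / L) := by
          field_simp
        rw [e, div_eq_mul_one_div (8 * (Λ : ℝ) / 3 * (C₃ + 25)) (r : ℝ)]
        refine mul_le_mul_of_nonneg_left ?_ (by positivity)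
        rw [div_le_div_iff₀ hL0 hr0]
        linarith

/-- energy of the kernel over the next block -/
theorem En_q_le {Λ : ℕ} {t T' : ℕ} (ht : 1 ≤ t) (hT' : T' ≤ 2 * Λ * t) (hM : 2 * (t + T') < M) :
    En M T' (q M t) ≤ Λ := by
  have ht0 : (0 : ℝ) < t := by exact_mod_cast ht
  have h1 : ∀ k ∈ Finset.Icc 1 T', Pool.Agent.H95.QC.sq ((step (st M) 1)^[k] (q M t)) ≤
      1 / (3 * (t : ℝ)) := by
    intro k hk
    rw [Finset.mem_Icc] at hk
    rw [← q_add, targetK1 M (t + k) (by omega)]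
    refine ((targetK0'.2 (t + k) (by omega)).2).trans ?_
    refine one_div_le_one_div_of_le (by positivity) ?_
    push_cast
    linarith [Nat.cast_nonneg (α := ℝ) k]
  calc En M T' (q M t) ≤ ∑ _k ∈ Finset.Icc 1 T', 1 / (3 * (t : ℝ)) := Finset.sum_le_sum h1
    _ = T' * (1 / (3 * (t : ℝ))) := by
      rw [Finset.sum_const, Nat.card_Icc, Nat.add_sub_cancel, nsmul_eq_mul]
    _ ≤ (2 * Λ * t) * (1 / (3 * (t : ℝ))) := by
      gcongr
      exact_mod_cast hT'
    _ = 2 / 3 * Λ := by field_simp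
    _ ≤ Λ := by
      have : (0 : ℝ) ≤ Λ := Nat.cast_nonneg Λ
      linarith

/-- the bad event of the look-back -/
def Hb (M : ℕ) [NeZero M] (a b : ℕ) : Set (ℕ → Tor M → ℝ≥0) :=
  {w | WW M b w < WW M a w / 2}

theorem measurableSet_Hb (a b : ℕ) : MeasurableSet (Hb M a b) :=
  measurableSet_lt (measurable_WW M b) ((measurable_WW M a).div_const 2)

/-- probability of the bad event -/
theorem prob_Hb (c : Ctx M Λ N K n ν s θ) (hE4 : TargetE4) (hP2 : TargetP2) {C₂ : ℝ}
    (hC₂0 : 0 ≤ C₂)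
    (hC₂ : ∀ i < K, ∫⁻ w in {w | Good M n θ i w},
      ENNReal.ofReal (En M (n (i + 1) - n i) (mu M (n i) w)) ∂(env (Tor M) ν) ≤ ENNReal.ofReal C₂)
    {i j : ℕ} (hij : i ≤ j) (hj : j ≤ K) :
    (env (Tor M) ν) ({w | Good M n θ i w} ∩ Hb M (n i) (n j)) ≤
      ENNReal.ofReal (4 * ((s / (1 - s * Rn (n j - n i))) * (C₂ + Λ * ((j - i : ℕ) : ℝ)))) := by
  have hp := c.hw.prob
  have hΛ := c.hΛ
  have hmono : n i ≤ n j := c.hG.mono (by omega) hij hj
  rcases hij.eq_or_lt with h | h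
  · have : ({w | Good M n θ i w} ∩ Hb M (n i) (n j)) = ∅ := by
      rw [Set.eq_empty_iff_forall_notMem]
      rintro w ⟨-, hw⟩
      have hw' : WW M (n j) w < WW M (n i) w / 2 := hw
      rw [← h] at hw'
      have := WW_nonneg M (n i) w
      linarith
    rw [this, measure_empty]
    exact bot_le
  have hA := measurableSet_Good M n θ i
  have hH := measurableSet_Hb (M := M) (n i) (n j)
  have h1 := int_Z_long c hE4 hP2 hC₂0 hC₂ h hj
  calc (env (Tor M) ν) ({w | Good M n θ i w} ∩ Hb M (n i) (n j))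
      = ∫⁻ _w in {w | Good M n θ i w} ∩ Hb M (n i) (n j), 1 ∂(env (Tor M) ν) := by simp
    _ ≤ ∫⁻ w in {w | Good M n θ i w} ∩ Hb M (n i) (n j), (ENNReal.ofReal 4 * ENNReal.ofReal
          ((Z (st M) 1 (n j - n i) (shift (n i) w) (mu M (n i) w) - 1) ^ 2)) ∂(env (Tor M) ν) := by
        refine setLIntegral_mono' (hA.inter hH) ?_
        rintro w ⟨hg, hw⟩
        have hpos : 0 < WW M (n i) w := Good.pos M c.hG.zero c.hθ hg
        have hW := WW_split M (n i) (n j - n i) w hpos.ne'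
        have e : n i + (n j - n i) = n j := by omega
        rw [e] at hW
        have hw' : WW M (n j) w < WW M (n i) w / 2 := hw
        rw [hW] at hw'
        set ζ := Z (st M) 1 (n j - n i) (shift (n i) w) (mu M (n i) w)
        have h2 : ζ < 1 / 2 := by
          by_contra h'
          push Not at h'
          nlinarith
        rw [← ENNReal.ofReal_mul (by norm_num), ← ENNReal.ofReal_one]
        refine ENNReal.ofReal_le_ofReal ?_
        nlinarith
    _ ≤ ∫⁻ w in {w | Good M n θ i w}, (ENNReal.ofReal 4 * ENNReal.ofReal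
          ((Z (st M) 1 (n j - n i) (shift (n i) w) (mu M (n i) w) - 1) ^ 2)) ∂(env (Tor M) ν) :=
        lintegral_mono_set Set.inter_subset_left
    _ ≤ ENNReal.ofReal 4 * ENNReal.ofReal
          ((s / (1 - s * Rn (n j - n i))) * (C₂ + Λ * ((j - i : ℕ) : ℝ))) := by
        rw [lintegral_const_mul' _ _ ENNReal.ofReal_ne_top]
        gcongr
    _ = _ := by rw [← ENNReal.ofReal_mul (by norm_num)]

/-- the decomposition of the difference on the good part -/
theorem good_part {i j : ℕ} (hθ : 0 < θ) (hn0 : n 0 = 0) (hij : n i ≤ n j) (T' : ℕ)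
    {w : ℕ → Tor M → ℝ≥0} (hg : Good M n θ i w)
    (hρ : θ / 2 ≤ Z (st M) 1 (n j - n i) (shift (n i) w) (mu M (n i) w)) {Q : ℝ}
    (hQ : En M T' (q M (n j)) ≤ Q) :
    En M T' (mu M (n j) w - q M (n j)) ≤ 12 / θ ^ 2 *
      (En M T' (evo (st M) 1 (n j - n i) (shift (n i) w) (mu M (n i) w) -
        (step (st M) 1)^[n j - n i] (mu M (n i) w)) +
       En M T' ((step (st M) 1)^[n j - n i] (mu M (n i) w - q M (n i))) +
       Q * (Z (st M) 1 (n j - n i) (shift (n i) w) (mu M (n i) w) - 1) ^ 2) := by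
  have hpos : 0 < WW M (n i) w := Good.pos M hn0 hθ hg
  have e : n i + (n j - n i) = n j := by omega
  have hmu := mu_split M (n i) (n j - n i) w hpos.ne'
  rw [e] at hmu
  set ρ := Z (st M) 1 (n j - n i) (shift (n i) w) (mu M (n i) w) with hρd
  set ev := evo (st M) 1 (n j - n i) (shift (n i) w) (mu M (n i) w) with hev
  set Pm := (step (st M) 1)^[n j - n i] (mu M (n i) w) with hPm
  have hρ0 : 0 < ρ := lt_of_lt_of_le (by positivity) hρ
  have hPq : (step (st M) 1)^[n j - n i] (q M (n i)) = q M (n j) := by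
    rw [← q_add, e]
  have h1 : mu M (n j) w - q M (n j) = ρ⁻¹ • ((ev - Pm) +
      (step (st M) 1)^[n j - n i] (mu M (n i) w - q M (n i)) + (1 - ρ) • q M (n j)) := by
    rw [iterate_step_sub, hPq, ← hPm, hmu]
    have : (ev - Pm + (Pm - q M (n j)) + (1 - ρ) • q M (n j)) = ev - ρ • q M (n j) := by
      rw [sub_smul, one_smul]; abel
    rw [this, smul_sub, smul_smul, inv_mul_cancel₀ hρ0.ne', one_smul]
  rw [h1, En_smul]
  have h2 := En_add3_le M T' (ev - Pm)
    ((step (st M) 1)^[n j - n i] (mu M (n i) w - q M (n i))) ((1 - ρ) • q M (n j))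
  rw [En_smul M T' (1 - ρ)] at h2
  have h3 : (ρ⁻¹) ^ 2 ≤ 4 / θ ^ 2 := by
    rw [inv_pow, inv_le_comm₀ (by positivity) (by positivity), inv_div]
    have := pow_le_pow_left₀ (by positivity) hρ 2
    linarith
  have h4 : (1 - ρ) ^ 2 * En M T' (q M (n j)) ≤ Q * (ρ - 1) ^ 2 := by
    have : (1 - ρ) ^ 2 = (ρ - 1) ^ 2 := by ring
    rw [this, mul_comm]
    exact mul_le_mul_of_nonneg_right hQ (sq_nonneg _)
  have h5 : 0 ≤ En M T' ((ev - Pm) +
      (step (st M) 1)^[n j - n i] (mu M (n i) w - q M (n i)) + (1 - ρ) • q M (n j)) :=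
    En_nonneg M _ _
  calc (ρ⁻¹) ^ 2 * En M T' ((ev - Pm) +
      (step (st M) 1)^[n j - n i] (mu M (n i) w - q M (n i)) + (1 - ρ) • q M (n j))
      ≤ 4 / θ ^ 2 * (3 * (En M T' (ev - Pm) +
        En M T' ((step (st M) 1)^[n j - n i] (mu M (n i) w - q M (n i))) +
        Q * (ρ - 1) ^ 2)) := by
        refine mul_le_mul h3 (h2.trans ?_) h5 (by positivity)
        linarith
    _ = _ := by ring

end

theorem mul_ofReal {a b : ℝ} (ha : 0 ≤ a) : ENNReal.ofReal a * ENNReal.ofReal b =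
    ENNReal.ofReal (a * b) := (ENNReal.ofReal_mul ha).symm

theorem add_ofReal {a b : ℝ} (ha : 0 ≤ a) (hb : 0 ≤ b) : ENNReal.ofReal a + ENNReal.ofReal b =
    ENNReal.ofReal (a + b) := (ENNReal.ofReal_add ha hb).symm

theorem targetD4_of (hE4 : TargetE4) (hP1 : TargetP1) (hP2 : TargetP2) (hD3 : TargetD3) :
    TargetD4 := by
  intro Λ θ hΛ hθ hθ1 h8
  obtain ⟨C₁, hC₁, hP⟩ := hP1 (4 * Λ)
  have hPa : P1a (4 * Λ) C₁ := fun M T T' _ ν s μ h1 h2 h3 h4 h5 h6 h7 h8 =>
    (hP M T T' ν s μ h1 h2 h3 h4 h5 h6 h7 h8).1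
  have hPb : P1b (4 * Λ) C₁ := fun M T T' _ ν s μ h1 h2 h3 h4 h5 h6 h7 h8 =>
    (hP M T T' ν s μ h1 h2 h3 h4 h5 h6 h7 h8).2
  obtain ⟨C₂, B₂, hC₂, hB₂, hD2⟩ := targetD2_of hP1 Λ θ hΛ hθ hθ1
  obtain ⟨C₃, hC₃, hD3'⟩ := hD3 Λ θ hΛ hθ hθ1 h8
  have hΛ0 : (0 : ℝ) < Λ := by exact_mod_cast (by omega : 0 < Λ)
  set cI : ℝ := C₁ * (1 + C₂ + Λ) with hcI
  set cII : ℝ := 16 * Λ / 3 * (C₃ + 25) with hcII
  set cIII : ℝ := C₂ + Λ with hcIII
  set G : ℝ := 12 / θ ^ 2 * (cI + cII + Λ * cIII) with hG'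
  set Bd : ℝ := 2 * ((θ ^ 2)⁻¹ * C₁ * (4 * cIII + C₂) + Λ * (4 * cIII)) with hBd
  have hcI0 : 0 < cI := by positivity
  have hcII0 : 0 < cII := by positivity
  have hcIII0 : 0 < cIII := by positivity
  have hG0 : 0 < G := by positivity
  have hBd0 : 0 < Bd := by positivity
  refine ⟨G + Bd, B₂, by positivity, hB₂, ?_⟩
  intro M N K _ n ν s hG hw hs hb hev hM i hi
  have hp := hw.prob
  have c : Ctx M Λ N K n ν s θ := ⟨hΛ, hθ, hG, hw, hs, hB₂.trans hb, hM⟩
  have hC₂i := fun i hi => hD2 M N K n ν s hG hw hs hb hM i hi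
  have hC₃i := fun i h1 h2 => hD3' M N K n ν s hG hw i h1 h2
  rcases Nat.eq_zero_or_pos i with h0 | hipos
  · subst h0
    rw [hG.zero]
    have : ∀ w : ℕ → Tor M → ℝ≥0, mu M 0 w - q M 0 = (0 : ℝ) • (0 : Tor M → ℝ) := by
      intro w
      rw [mu_zero, zero_smul]
      exact sub_self _
    simp_rw [this, En_smul]
    simp
  obtain ⟨i', rfl⟩ : ∃ i', i = i' + 1 := ⟨i - 1, by omega⟩
  -- the scale
  have hN2 : n (i' + 2) ≤ N := hG.le_N (by omega) (by omega)
  have hm2 : n (i' + 1) ≤ n (i' + 2) := hG.mono_succ (by omega) (by omega)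
  have hm1 : n i' ≤ n (i' + 1) := hG.mono_succ (by omega) (by omega)
  obtain ⟨hDs, -, hD0, -⟩ := D_bounds hs le_rfl c.hb (T := n (i' + 2)) hN2
  set b : ℝ := (1 - s * Rn (n (i' + 2))) / s with hbdef
  have hb1 : 1 ≤ b := by rw [hbdef, le_div_iff₀ hs]; linarith
  have hb0 : 0 < b := by linarith
  set x : ℝ := √b with hx
  have hx1 : 1 ≤ x := Real.one_le_sqrt.2 hb1
  have hx0 : 0 < x := by linarith
  have hxx : x * x = b := Real.mul_self_sqrt hb0.le
  have hβ : ∀ L ≤ n (i' + 2), s / (1 - s * Rn L) ≤ 1 / (x * x) := by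
    intro L hL
    have h1 : 1 - s * Rn (n (i' + 2)) ≤ 1 - s * Rn L := D_anti hs.le hL
    rw [hxx, hbdef, one_div_div]
    exact div_le_div_of_nonneg_left hs.le hD0 h1
  have hβ0 : ∀ L ≤ n (i' + 2), 0 ≤ s / (1 - s * Rn L) := by
    intro L hL
    have h1 : 1 - s * Rn (n (i' + 2)) ≤ 1 - s * Rn L := D_anti hs.le hL
    exact div_nonneg hs.le (by linarith)
  -- look back
  set r0 : ℕ := ⌊x⌋₊ with hr0
  have hr01 : 1 ≤ r0 := by rw [hr0, Nat.one_le_floor_iff]; exact hx1
  have hr0x : (r0 : ℝ) ≤ x := Nat.floor_le hx0.le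
  set i0 : ℕ := i' + 1 - r0 with hi0
  have hi0lt : i0 < i' + 1 := by omega
  have hrle : ((i' + 1 - i0 : ℕ) : ℝ) ≤ x := by
    refine le_trans ?_ hr0x
    exact_mod_cast (by omega : i' + 1 - i0 ≤ r0)
  have hrle' : ((i' - i0 : ℕ) : ℝ) ≤ x := by
    refine le_trans ?_ hrle
    exact_mod_cast (by omega : i' - i0 ≤ i' + 1 - i0)
  have hmono0 : n i0 ≤ n (i' + 1) := hG.mono (by omega) hi0lt.le (by omega)
  have hmono0' : n i0 ≤ n i' := hG.mono (by omega) (by omega) (by omega)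
  set L := n (i' + 1) - n i0 with hL
  set T' := n (i' + 2) - n (i' + 1) with hT'
  have hLle : L ≤ n (i' + 2) := by omega
  -- numerical bound used three times
  have hnum : ∀ y : ℝ, 0 ≤ y → y ≤ x → ∀ L ≤ n (i' + 2),
      (s / (1 - s * Rn L)) * (C₂ + Λ * y) ≤ cIII / x := by
    intro y hy0 hy L hL
    have h1 : C₂ ≤ C₂ * x := le_mul_of_one_le_right hC₂.le hx1
    have h2 : Λ * y ≤ Λ * x := mul_le_mul_of_nonneg_left hy hΛ0.le
    calc (s / (1 - s * Rn L)) * (C₂ + Λ * y) ≤ 1 / (x * x) * (C₂ * x + Λ * x) :=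
          mul_le_mul (hβ L hL) (by linarith) (by positivity) (by positivity)
      _ = cIII / x := by rw [hcIII]; field_simp
  -- I
  have bI : ∫⁻ w in {w | Good M n θ i0 w}, ENNReal.ofReal (En M T'
      (evo (st M) 1 L (shift (n i0) w) (mu M (n i0) w) -
        (step (st M) 1)^[L] (mu M (n i0) w))) ∂(env (Tor M) ν) ≤ ENNReal.ofReal (cI / x) := by
    refine (int_I c hE4 hC₁ hPa hC₂.le hC₂i hi0lt hi).trans (ENNReal.ofReal_le_ofReal ?_)
    have h1 : (0 : ℝ) ≤ ((i' + 1 - i0 : ℕ) : ℝ) := Nat.cast_nonneg _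
    calc C₁ * (s / (1 - s * Rn (n (i' + 1) - n i0))) * (1 + (C₂ + Λ * ((i' + 1 - i0 : ℕ) : ℝ)))
        ≤ C₁ * (1 / (x * x)) * (x + (C₂ * x + Λ * x)) := by
          have h2 : C₂ ≤ C₂ * x := le_mul_of_one_le_right hC₂.le hx1
          have h3 : Λ * ((i' + 1 - i0 : ℕ) : ℝ) ≤ Λ * x := mul_le_mul_of_nonneg_left hrle hΛ0.le
          exact mul_le_mul (mul_le_mul_of_nonneg_left (hβ L hLle) hC₁.le) (by linarith)
            (by positivity) (by positivity)
      _ = cI / x := by rw [hcI]; field_simp; ring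
  -- II
  have bII : ∫⁻ w in {w | Good M n θ i0 w}, ENNReal.ofReal (En M T'
      ((step (st M) 1)^[L] (mu M (n i0) w - q M (n i0)))) ∂(env (Tor M) ν) ≤
      ENNReal.ofReal (cII / x) := by
    rcases Nat.eq_zero_or_pos i0 with h0 | h0
    · have hn : n i0 = 0 := by rw [h0, hG.zero]
      have : ∀ w : ℕ → Tor M → ℝ≥0, (step (st M) 1)^[L] (mu M (n i0) w - q M (n i0)) =
          (0 : ℝ) • (0 : Tor M → ℝ) := by
        intro w
        rw [hn, mu_zero]
        have e : (dl 0 : Tor M → ℝ) - q M 0 = (0 : ℝ) • (0 : Tor M → ℝ) := by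
          rw [zero_smul]; exact sub_self _
        rw [e, iterate_step_smul]
        simp
      simp_rw [this, En_smul]
      simp
    · refine (int_II c hev hC₃ hC₃i h0 hi0lt hi).trans (ENNReal.ofReal_le_ofReal ?_)
      have hr : i' + 1 - i0 = r0 := by omega
      rw [hr, hcII]
      have hrp : (0 : ℝ) < r0 := by exact_mod_cast hr01
      have hx2 : x ≤ 2 * r0 := by
        have h1 := Nat.lt_floor_add_one x
        have h2 : (1 : ℝ) ≤ r0 := by exact_mod_cast hr01
        rw [← hr0] at h1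
        linarith
      rw [div_le_div_iff₀ hrp hx0]
      have h3 : 0 ≤ 8 * (Λ : ℝ) / 3 * (C₃ + 25) := by positivity
      have h4 := mul_le_mul_of_nonneg_left hx2 h3
      calc 8 * (Λ : ℝ) / 3 * (C₃ + 25) * x ≤ 8 * (Λ : ℝ) / 3 * (C₃ + 25) * (2 * r0) := h4
        _ = 16 * Λ / 3 * (C₃ + 25) * r0 := by ring
  -- III
  have bIII : ∫⁻ w in {w | Good M n θ i0 w}, ENNReal.ofReal
      ((Z (st M) 1 L (shift (n i0) w) (mu M (n i0) w) - 1) ^ 2) ∂(env (Tor M) ν) ≤
      ENNReal.ofReal (cIII / x) :=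
    (int_Z_long c hE4 hP2 hC₂.le hC₂i hi0lt hi.le).trans
      (ENNReal.ofReal_le_ofReal (hnum _ (Nat.cast_nonneg _) hrle L hLle))
  -- energy of the kernel
  have hQ : En M T' (q M (n (i' + 1))) ≤ Λ := by
    refine En_q_le (hG.pos (by omega) (by omega) (by omega)) ?_ (by omega)
    have := (hG.ratio (i' + 1) (by omega) hi).2
    have e : n (i' + 1 + 1) = n (i' + 2) := rfl
    omega
  -- the bad event
  have bP : (env (Tor M) ν) ({w | Good M n θ i' w} ∩ Hb M (n i0) (n i')) ≤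
      ENNReal.ofReal (4 * cIII / x) := by
    refine le_trans (measure_mono ?_) ((prob_Hb c hE4 hP2 hC₂.le hC₂i (by omega : i0 ≤ i')
      (by omega)).trans (ENNReal.ofReal_le_ofReal ?_))
    · rintro w ⟨h1, h2⟩
      exact ⟨Good.mono M h1 (by omega), h2⟩
    · have := hnum _ (Nat.cast_nonneg (i' - i0)) hrle' (n i' - n i0) (by omega)
      calc 4 * ((s / (1 - s * Rn (n i' - n i0))) * (C₂ + Λ * ((i' - i0 : ℕ) : ℝ)))
          ≤ 4 * (cIII / x) := by gcongr
        _ = _ := by ring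
  set A : Set (ℕ → Tor M → ℝ≥0) := {w | Good M n θ i' w} ∩ Hb M (n i0) (n i') with hA
  have hAm : MeasurableSet A := (measurableSet_Good M n θ i').inter (measurableSet_Hb _ _)
  have hAdep : DepLt (n i') (fun w => w ∈ A) := by
    intro y y' hy
    have h1 : Good M n θ i' y = Good M n θ i' y' :=
      Good_depLt M (fun k hk => hG.mono (by omega) hk (by omega)) θ y y' hy
    have h2 : WW M (n i') y = WW M (n i') y' := WW_depLt M _ y y' hy
    have h3 : WW M (n i0) y = WW M (n i0) y' := WW_depLt M _ y y' fun k hk => hy k (by omega)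
    show (Good M n θ i' y ∧ WW M (n i') y < WW M (n i0) y / 2) =
      (Good M n θ i' y' ∧ WW M (n i') y' < WW M (n i0) y' / 2)
    rw [h1, h2, h3]
  have bE : ∫⁻ w in A ∩ {w | Good M n θ (i' + 1) w}, ENNReal.ofReal (En M T'
      (mu M (n (i' + 1)) w)) ∂(env (Tor M) ν) ≤
      ENNReal.ofReal ((θ ^ 2)⁻¹ * C₁ * (4 * cIII + C₂) / x) := by
    refine (block_step (M := M) hΛ hθ hPb hC₁ hG hw hs le_rfl c.hb hM hi hAm hAdep
      (fun w hw => hw.1)).trans ?_
    have hLb : n (i' + 1) - n i' ≤ n (i' + 2) := by omega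
    rw [setLIntegral_affine (env (Tor M) ν) (by positivity) (hβ0 _ hLb)
      (fun w => En_nonneg M _ _)]
    have h1 : ∫⁻ w in A, ENNReal.ofReal (En M (n (i' + 1) - n i') (mu M (n i') w))
        ∂(env (Tor M) ν) ≤ ENNReal.ofReal C₂ :=
      (lintegral_mono_set Set.inter_subset_left).trans (hC₂i i' (by omega))
    calc ENNReal.ofReal ((θ ^ 2)⁻¹ * C₁) * ((env (Tor M) ν) A +
          ENNReal.ofReal (s / (1 - s * Rn (n (i' + 1) - n i'))) *
          ∫⁻ w in A, ENNReal.ofReal (En M (n (i' + 1) - n i') (mu M (n i') w)) ∂(env (Tor M) ν))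
        ≤ ENNReal.ofReal ((θ ^ 2)⁻¹ * C₁) * (ENNReal.ofReal (4 * cIII / x) +
          ENNReal.ofReal (1 / x) * ENNReal.ofReal C₂) := by
          have h2 : s / (1 - s * Rn (n (i' + 1) - n i')) ≤ 1 / x :=
            (hβ _ hLb).trans (one_div_le_one_div_of_le hx0 (le_mul_of_one_le_right hx0.le hx1))
          exact mul_le_mul_right (add_le_add bP (mul_le_mul' (ENNReal.ofReal_le_ofReal h2) h1)) _
      _ = _ := by
          rw [mul_ofReal (by positivity), add_ofReal (by positivity) (by positivity),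
            mul_ofReal (by positivity)]
          congr 1
          field_simp
  -- splitting of the integral
  set Bad : Set (ℕ → Tor M → ℝ≥0) := {w | WW M (n (i' + 1)) w < θ / 2 * WW M (n i0) w} with hBad
  have hBadm : MeasurableSet Bad :=
    measurableSet_lt (measurable_WW M _) ((measurable_WW M _).const_mul _)
  have hGm := measurableSet_Good M n θ (i' + 1)
  rw [← lintegral_inter_add_diff (B := Bad) _ {w | Good M n θ (i' + 1) w} hBadm]
  -- bad part
  have part1 : ∫⁻ w in {w | Good M n θ (i' + 1) w} ∩ Bad, ENNReal.ofReal (En M T'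
      (mu M (n (i' + 1)) w - q M (n (i' + 1)))) ∂(env (Tor M) ν) ≤ ENNReal.ofReal (Bd / x) := by
    have hsub : {w | Good M n θ (i' + 1) w} ∩ Bad ⊆ A ∩ {w | Good M n θ (i' + 1) w} := by
      rintro w ⟨h1, h2⟩
      refine ⟨⟨Good.mono M h1 (by omega), ?_⟩, h1⟩
      have h3 := ((Good_succ M n θ i' w).1 h1).2
      have h2' : WW M (n (i' + 1)) w < θ / 2 * WW M (n i0) w := h2
      show WW M (n i') w < WW M (n i0) w / 2
      have h4 : θ * WW M (n i') w < θ * (WW M (n i0) w / 2) := by linarith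
      exact lt_of_mul_lt_mul_left h4 hθ.le
    calc ∫⁻ w in {w | Good M n θ (i' + 1) w} ∩ Bad, ENNReal.ofReal (En M T'
          (mu M (n (i' + 1)) w - q M (n (i' + 1)))) ∂(env (Tor M) ν)
        ≤ ∫⁻ w in A ∩ {w | Good M n θ (i' + 1) w}, ENNReal.ofReal (En M T'
          (mu M (n (i' + 1)) w - q M (n (i' + 1)))) ∂(env (Tor M) ν) := lintegral_mono_set hsub
      _ ≤ ∫⁻ w in A ∩ {w | Good M n θ (i' + 1) w}, (ENNReal.ofReal 2 * (ENNReal.ofReal (En M T'
          (mu M (n (i' + 1)) w)) + ENNReal.ofReal Λ)) ∂(env (Tor M) ν) := by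
          refine lintegral_mono fun w => ?_
          rw [add_ofReal (En_nonneg M _ _) hΛ0.le, mul_ofReal (by norm_num)]
          refine ENNReal.ofReal_le_ofReal ((En_sub_le M T' _ _).trans ?_)
          linarith
      _ = ENNReal.ofReal 2 * ((∫⁻ w in A ∩ {w | Good M n θ (i' + 1) w}, ENNReal.ofReal (En M T'
          (mu M (n (i' + 1)) w)) ∂(env (Tor M) ν)) +
          ENNReal.ofReal Λ * (env (Tor M) ν) (A ∩ {w | Good M n θ (i' + 1) w})) := by
          rw [lintegral_const_mul' _ _ ENNReal.ofReal_ne_top,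
            lintegral_add_right _ measurable_const, setLIntegral_const]
      _ ≤ ENNReal.ofReal 2 * (ENNReal.ofReal ((θ ^ 2)⁻¹ * C₁ * (4 * cIII + C₂) / x) +
          ENNReal.ofReal Λ * ENNReal.ofReal (4 * cIII / x)) := by
          gcongr
          exact (measure_mono Set.inter_subset_left).trans bP
      _ = ENNReal.ofReal (Bd / x) := by
          rw [mul_ofReal hΛ0.le, add_ofReal (by positivity) (by positivity),
            mul_ofReal (by norm_num)]
          congr 1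
          rw [hBd]
          field_simp
  -- good part
  have part2 : ∫⁻ w in {w | Good M n θ (i' + 1) w} \ Bad, ENNReal.ofReal (En M T'
      (mu M (n (i' + 1)) w - q M (n (i' + 1)))) ∂(env (Tor M) ν) ≤ ENNReal.ofReal (G / x) := by
    calc ∫⁻ w in {w | Good M n θ (i' + 1) w} \ Bad, ENNReal.ofReal (En M T'
          (mu M (n (i' + 1)) w - q M (n (i' + 1)))) ∂(env (Tor M) ν)
        ≤ ∫⁻ w in {w | Good M n θ (i' + 1) w} \ Bad, (ENNReal.ofReal (12 / θ ^ 2) *
          (ENNReal.ofReal (En M T' (evo (st M) 1 L (shift (n i0) w) (mu M (n i0) w) -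
            (step (st M) 1)^[L] (mu M (n i0) w))) +
           ENNReal.ofReal (En M T' ((step (st M) 1)^[L] (mu M (n i0) w - q M (n i0)))) +
           ENNReal.ofReal Λ * ENNReal.ofReal
            ((Z (st M) 1 L (shift (n i0) w) (mu M (n i0) w) - 1) ^ 2))) ∂(env (Tor M) ν) := by
          refine setLIntegral_mono' (hGm.diff hBadm) ?_
          rintro w ⟨h1, h2⟩
          have hg0 : Good M n θ i0 w := Good.mono M h1 hi0lt.le
          have hpos : 0 < WW M (n i0) w := hg0.pos M hG.zero hθ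
          have hW := WW_split M (n i0) L w hpos.ne'
          have e : n i0 + L = n (i' + 1) := by omega
          rw [e] at hW
          have h3 : θ / 2 * WW M (n i0) w ≤ WW M (n (i' + 1)) w := not_lt.1 h2
          have hρ : θ / 2 ≤ Z (st M) 1 L (shift (n i0) w) (mu M (n i0) w) := by
            rw [hW, mul_comm] at h3
            exact le_of_mul_le_mul_left h3 hpos
          rw [mul_ofReal hΛ0.le, add_ofReal (En_nonneg M _ _) (En_nonneg M _ _),
            add_ofReal (add_nonneg (En_nonneg M _ _) (En_nonneg M _ _)) (by positivity),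
            mul_ofReal (by positivity)]
          exact ENNReal.ofReal_le_ofReal (good_part hθ hG.zero hmono0 T' hg0 hρ hQ)
      _ ≤ ∫⁻ w in {w | Good M n θ i0 w}, (ENNReal.ofReal (12 / θ ^ 2) *
          (ENNReal.ofReal (En M T' (evo (st M) 1 L (shift (n i0) w) (mu M (n i0) w) -
            (step (st M) 1)^[L] (mu M (n i0) w))) +
           ENNReal.ofReal (En M T' ((step (st M) 1)^[L] (mu M (n i0) w - q M (n i0)))) +
           ENNReal.ofReal Λ * ENNReal.ofReal
            ((Z (st M) 1 L (shift (n i0) w) (mu M (n i0) w) - 1) ^ 2))) ∂(env (Tor M) ν) := by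
          refine lintegral_mono_set ?_
          rintro w ⟨h1, -⟩
          exact Good.mono M h1 hi0lt.le
      _ ≤ ENNReal.ofReal (12 / θ ^ 2) * (ENNReal.ofReal (cI / x) + ENNReal.ofReal (cII / x) +
          ENNReal.ofReal Λ * ENNReal.ofReal (cIII / x)) := by
          have m1 : Measurable (fun w : ℕ → Tor M → ℝ≥0 => ENNReal.ofReal (En M T'
              ((step (st M) 1)^[L] (mu M (n i0) w - q M (n i0))))) := by
            refine ENNReal.measurable_ofReal.comp ((measurable_En M T').comp ?_)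
            exact ((measurable_step (st M) 1).iterate L).comp
              ((measurable_mu M (n i0)).sub_const _)
          have m2 : Measurable (fun w : ℕ → Tor M → ℝ≥0 => ENNReal.ofReal Λ * ENNReal.ofReal
              ((Z (st M) 1 L (shift (n i0) w) (mu M (n i0) w) - 1) ^ 2)) := by
            refine Measurable.const_mul (ENNReal.measurable_ofReal.comp ?_) _
            have h : Measurable (fun w : ℕ → Tor M → ℝ≥0 =>
                ((shift (n i0) w, mu M (n i0) w) : (ℕ → Tor M → ℝ≥0) × (Tor M → ℝ))) :=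
              (measurable_shift _).prodMk (measurable_mu M (n i0))
            exact (((measurable_Z (st M) 1 L).comp h).sub_const 1).pow_const 2
          rw [lintegral_const_mul' _ _ ENNReal.ofReal_ne_top, lintegral_add_right _ m2,
            lintegral_add_right _ m1, lintegral_const_mul' _ _ ENNReal.ofReal_ne_top]
          gcongr
      _ = ENNReal.ofReal (G / x) := by
          rw [mul_ofReal hΛ0.le, add_ofReal (by positivity) (by positivity),
            add_ofReal (by positivity) (by positivity), mul_ofReal (by positivity)]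
          congr 1
          rw [hG']
          field_simp
  refine (add_le_add part1 part2).trans ?_
  rw [add_ofReal (by positivity) (by positivity)]
  refine ENNReal.ofReal_le_ofReal (le_of_eq ?_)
  ring

end Pool.Agent.H9.QC
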